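import Pool.Agent.L7h65.TN.Stm

set_option autoImplicit false

/-!
# The perturbed instance is a Chebyshev system
-/

namespace Pool.Agent.L7h65.TN

open Pool.Agent.NPC Pool.Agent.H558R2 Pool.Agent.H622R3.SM Pool.Agent.W920.FC Pool.Agent.L7h61.CH

theorem psr_lt {m n r : ℕ} (hr : r < mm m n) : psr n r < n + m := by
  unfold psr
  unfold mm at hr
  split_ifs with h <;> omega

theorem psr_mono {n r s : ℕ} (h : r ≤ s) : psr n r ≤ psr n s := by
  unfold psr
  split_ifs with h1 h2 <;> omega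

theorem s_cheb : S_CHEB := by
  intro m ν σ A T h
  refine ⟨fun r => ⟨psr (ν + 1) r, psr_lt r.2⟩, fun r => if ngr (ν + 1) σ r = true then -1 else 1,
    ⟨by omega, ⟨1, fun f hf => ?_⟩, fun r s hrs => ?_, fun r => ?_, fun r => ?_⟩⟩
  · rw [one_mul]
    exact h f hf
  · exact psr_mono hrs
  · show (if ngr (ν + 1) σ r = true then (-1 : ℝ) else 1) ≠ 0
    split_ifs <;> norm_num
  · funext j
    rfl

end Pool.Agent.L7h65.TN
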