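import Pool.Agent.L7h65.TN.Run
import Pool.Agent.L7h61.CH.Core

set_option autoImplicit false

/-!
# Linear feasibility for totally nonnegative matrices: the answer is correct
-/

namespace Pool.Agent.L7h65.TN

open Pool.Agent.NPC Pool.Agent.H558R2 Pool.Agent.H622R3.SM Pool.Agent.W920.FC Pool.Agent.L7h61.CH
open Filter

variable {m n : ℕ}

theorem sgs_getD (A : Fin m → Fin n → ℝ) (i : Fin m) :
    (sgs A).getD i false = true ↔ ∃ j, A i j < 0 := by
  unfold sgs
  rw [List.getD_eq_getElem _ _ (by simp)]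
  simp only [List.getElem_map, List.getElem_range, List.any_eq_true, List.mem_range,
    decide_eq_true_eq]
  constructor
  · rintro ⟨j, hj, h⟩
    refine ⟨⟨j, hj⟩, ?_⟩
    have e : start A (fun _ => 0) [0, (i : ℕ), j] = A i ⟨j, hj⟩ := by
      show (if h : (i : ℕ) < m ∧ j < n then A ⟨i, h.1⟩ ⟨j, h.2⟩ else 0) = _
      rw [dif_pos ⟨i.2, hj⟩]
    rw [e] at h
    rcases lt_trichotomy (A i ⟨j, hj⟩) 0 with h1 | h1 | h1
    · exact h1
    · rw [h1, signOut_zero] at h
      simp at h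
    · rw [signOut_pos h1] at h
      simp at h
  · rintro ⟨j, hj⟩
    refine ⟨j, j.2, ?_⟩
    have e : start A (fun _ => 0) [0, (i : ℕ), (j : ℕ)] = A i j := by
      show (if h : (i : ℕ) < m ∧ (j : ℕ) < n then A ⟨i, h.1⟩ ⟨j, h.2⟩ else 0) = _
      rw [dif_pos ⟨i.2, j.2⟩]
    rw [e, signOut_neg hj]

/-- The signs found are correct. -/
theorem tnn_of_cls (A : Fin m → Fin n → ℝ) (h : Cls m n A) : TNN (ww (sgs A) A) := by
  obtain ⟨s, hs, hW⟩ := h
  have key : ww (sgs A) A = fun i j => s i * A i j := by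
    funext i j
    have h1 : ∀ j, 0 ≤ s i * A i j := by
      intro j
      have := hW 1 (fun _ => i) (fun _ => j) (Subsingleton.strictMono _) (Subsingleton.strictMono _)
      rwa [Matrix.det_fin_one] at this
    unfold ww ss
    split_ifs with h2
    · obtain ⟨j', hj'⟩ := (sgs_getD A i).1 h2
      rcases hs i with h3 | h3
      · have := h1 j'
        rw [h3, one_mul] at this
        exact absurd this (not_le.2 hj')
      · rw [h3]
    · rcases hs i with h3 | h3
      · rw [h3]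
      · have h4 : ∀ j, 0 ≤ A i j := by
          intro j
          by_contra h5
          exact h2 ((sgs_getD A i).2 ⟨j, not_le.1 h5⟩)
        have h5 := h1 j
        rw [h3] at h5 ⊢
        have h6 := h4 j
        have h7 : A i j = 0 := by linarith
        rw [h7]
        ring
  rw [key]
  exact hW

theorem ev_key (hDEG : S_DEG) (hDIF : S_DIF) (hn : 1 ≤ n) (σ : List Bool) (A : Fin m → Fin n → ℝ)
    (b : Fin m → ℝ) (R : Key) : ∀ᶠ T : ℝ in atTop, signOut (mv σ A b R T) =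
      lead ((List.range (kk m n + 1)).map fun j => signOut (df σ A b R j 0)) := by
  obtain ⟨P, hP, hT⟩ := hDEG m n σ A b R hn
  filter_upwards [hDIF P (kk m n) hP] with T h
  rw [← hT T, h]
  congr 1
  refine List.map_congr_left fun j _ => ?_
  unfold df
  simp only [hT]

theorem ev_tab (hDEG : S_DEG) (hDIF : S_DIF) (hn : 1 ≤ n) (σ : List Bool) (A : Fin m → Fin n → ℝ)
    (b : Fin m → ℝ) (ks : List Key) : ∀ᶠ T : ℝ in atTop,
      tt (AA σ A T) (BB n b T) ks = tl σ A b ks := by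
  induction ks with
  | nil => exact Eventually.of_forall fun _ => rfl
  | cons R ks ih =>
    filter_upwards [ih, ev_key hDEG hDIF hn σ A b R] with T h1 h2
    unfold tt tl at h1 ⊢
    rw [List.map_cons, List.map_cons, h1, ← h2]
    rfl

theorem ev_sts (hDEG : S_DEG) (hDIF : S_DIF) (hn : 1 ≤ n) (σ : List Bool) (A : Fin m → Fin n → ℝ)
    (b : Fin m → ℝ) (L L' : Tab) (i : ℕ) : ∀ᶠ T : ℝ in atTop,
      sts (AA σ A T) (BB n b T) L L' i = stl σ A b L L' i := by
  induction i with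
  | zero => exact Eventually.of_forall fun _ => rfl
  | succ i ih =>
    filter_upwards [ih, ev_tab hDEG hDIF hn σ A b (K2 (mm m n) n (stl σ A b L L' i).2.1)] with T h1 h2
    show upd (mm m n) n L L' (tt _ _ (K2 (mm m n) n (sts _ _ L L' i).2.1)) (sts _ _ L L' i) = _
    rw [h1, h2]
    rfl

/-- **The answer is correct.** -/
theorem res_iff (hJW : S_JW) (hGK : S_GK) (hPOS : S_POS) (hCHEB : S_CHEB) (hLIM : S_LIM)
    (hDEG : S_DEG) (hDIF : S_DIF) (hn : 1 ≤ n) (A : Fin m → Fin n → ℝ) (b : Fin m → ℝ)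
    (hA : Cls m n A) :
    res (sgs A) A b = true ↔ ∃ x : Fin n → ℝ, ∀ i, b i ≤ A i ⬝ᵥ x := by
  obtain ⟨ν, rfl⟩ : ∃ ν, n = ν + 1 := ⟨n - 1, by omega⟩
  have hW := tnn_of_cls A hA
  set σ := sgs A with hσ
  set L := tl σ A b (K0 (mm m (ν + 1)) (ν + 1)) with hL
  set L' := tl σ A b (K1 (mm m (ν + 1)) (ν + 1) L) with hL'
  have hmm : 0 < mm m (ν + 1) := by unfold mm; omega
  have key : ∀ᶠ T : ℝ in atTop, (res σ A b = true ↔
      ∃ x : Fin (ν + 1) → ℝ, ∀ r, BB (ν + 1) b T r ≤ AA σ A T r ⬝ᵥ x) := by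
    filter_upwards [hPOS hJW hGK m (ν + 1) (ww σ A) hW,
      ev_tab hDEG hDIF hn σ A b (K0 (mm m (ν + 1)) (ν + 1)),
      ev_tab hDEG hDIF hn σ A b (K1 (mm m (ν + 1)) (ν + 1) L),
      ev_sts hDEG hDIF hn σ A b L L' (itN (mm m (ν + 1)) (ν + 1))] with T h1 h2 h3 h4
    obtain ⟨pos, c, H⟩ := hCHEB m ν σ A T h1
    have h5 : Tr (AA σ A T) (BB (ν + 1) b T) L (K0 (mm m (ν + 1)) (ν + 1)) := by
      rw [hL, ← h2]
      exact tr_tt _ _ _
    have h6 : Tr (AA σ A T) (BB (ν + 1) b T) L' (K1 (mm m (ν + 1)) (ν + 1) L) := by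
      rw [hL', ← h3]
      exact tr_tt _ _ _
    have h7 := core hmm H h5 h6
    rw [h4] at h7
    exact h7
  obtain ⟨l1, l2⟩ := hLIM m (ν + 1) σ A b hn
  constructor
  · intro h
    exact l2 (key.mono fun T hT => hT.1 h)
  · intro h
    obtain ⟨T, h1, h2⟩ := (key.and (l1 h)).exists
    exact h1.2 h2

end Pool.Agent.L7h65.TN
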