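import Pool.Agent.L7h61.CH.Val

set_option autoImplicit false

/-!
# Linear feasibility for totally nonnegative matrices: the algorithm

`A` is an `m × n` matrix, `σ` describes signs of its rows such that `W i = ± A i` is totally
nonnegative. The `n + m` rows of `U` are the signed unit vectors and the rows of `W`. For a natural
number (or real number) `T` the matrix with the rows `R a = ∑ c, T ^ xp a c • U c` is, for large `T`,
a Chebyshev system (Gaussian kernel). The instance at `T` has the rows `± R a`, `a < n`, with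
right-hand sides `- T ^ (2 E + 1)` (a box), and the rows `± R (n + i)`, `i < m`, with right-hand sides
`T ^ (2 E) b i - T ^ (2 E - 1)`, `E = (n + m) ^ 2`. Its entries are polynomials in `T`; the sign of a
minor for large `T` is found from the iterated differences of the values at `T = 0, …, K`. The
algorithm for Chebyshev systems (`Pool/Agent/L7h61/CH`) is run with these signs.
-/

namespace Pool.Agent.L7h65.TN

open Pool.Agent.NPC Pool.Agent.H558R2 Pool.Agent.H622R3.SM Pool.Agent.W920.FC Pool.Agent.L7h61.CH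

/-! ### Sizes -/

/-- The number of rows of the perturbed instance. -/
def mm (m n : ℕ) : ℕ := n + n + m

/-- The bound for the squares of the distances. -/
def ee (m n : ℕ) : ℕ := (n + m) * (n + m)

/-- The distance. -/
def dst (a c : ℕ) : ℕ := (a - c) + (c - a)

/-- The exponent of `T`. -/
def xp (m n a c : ℕ) : ℕ := 2 * (ee m n - dst a c * dst a c)

/-- The largest exponent. -/
def mx (m n : ℕ) : ℕ := 2 * ee m n + 1

/-- The bound for the degrees of the minors. -/
def kk (m n : ℕ) : ℕ := mm m n * mx m n

/-! ### Programs -/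

/-- The numbers `[60, t]`, `t ≤ K`. -/
def numP (K : ℕ) : List Instr :=
  ⟨Op.add, [60, 0], [3], [3]⟩ ::
    (List.range K).map fun t => (⟨Op.add, [60, t + 1], [60, t], [2]⟩ : Instr)

/-- The powers `[61, t, s]` of `t`, `s ≤ p`. -/
def powP (p t : ℕ) : List Instr :=
  ⟨Op.add, [61, t, 0], [2], [3]⟩ ::
    (List.range p).map fun s => (⟨Op.mul, [61, t, s + 1], [61, t, s], [60, t]⟩ : Instr)

/-- The entry `(c, j)` of `U`. -/
def uI (n : ℕ) (σ : List Bool) (c j : ℕ) : Instr :=
  if c < n then
    (if c + j + 1 = n then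
      (if j % 2 = 0 then ⟨Op.add, [62, c, j], [2], [3]⟩ else ⟨Op.sub, [62, c, j], [3], [2]⟩)
    else ⟨Op.add, [62, c, j], [3], [3]⟩)
  else if σ.getD (c - n) false = true then ⟨Op.sub, [62, c, j], [3], [0, c - n, j]⟩
  else ⟨Op.add, [62, c, j], [0, c - n, j], [3]⟩

/-- The matrix `U`. -/
def uP (m n : ℕ) (σ : List Bool) : List Instr :=
  (List.range (n + m)).flatMap fun c => (List.range n).map fun j => uI n σ c j

/-- The matrix `R` at `t`: products `[63, t, a, j, c]`, partial sums `[64, t, a, j, c]`. -/
def rP (m n t : ℕ) : List Instr :=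
  (List.range (n + m)).flatMap fun a => (List.range n).flatMap fun j =>
    (⟨Op.add, [64, t, a, j, 0], [3], [3]⟩ : Instr) ::
      (List.range (n + m)).flatMap fun c =>
        [(⟨Op.mul, [63, t, a, j, c], [61, t, xp m n a c], [62, c, j]⟩ : Instr),
          ⟨Op.add, [64, t, a, j, c + 1], [64, t, a, j, c], [63, t, a, j, c]⟩]

/-- The row `r` of the instance is a negative multiple of a row of `R`. -/
def ngr (n : ℕ) (σ : List Bool) (r : ℕ) : Bool :=
  if r < n + n then decide (r % 2 = 1) else σ.getD (r - (n + n)) false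

/-- The position of the row `r` of the instance. -/
def psr (n r : ℕ) : ℕ := if r < n + n then r / 2 else r - n

/-- The entry `(r, j)` of the instance at `t`. -/
def aI (m n : ℕ) (σ : List Bool) (t r j : ℕ) : Instr :=
  if ngr n σ r = true then ⟨Op.sub, [50, t, 0, r, j], [3], [64, t, psr n r, j, n + m]⟩
  else ⟨Op.add, [50, t, 0, r, j], [64, t, psr n r, j, n + m], [3]⟩

/-- The matrix of the instance at `t`. -/
def aP (m n : ℕ) (σ : List Bool) (t : ℕ) : List Instr :=
  (List.range (mm m n)).flatMap fun r => (List.range n).map fun j => aI m n σ t r j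

/-- The right-hand side of the row `r` of the instance at `t`. -/
def bI (m n t r : ℕ) : List Instr :=
  if r < n + n then [⟨Op.sub, [50, t, 1, r], [3], [61, t, mx m n]⟩]
  else [⟨Op.mul, [65, t, r], [61, t, 2 * ee m n], [1, r - (n + n)]⟩,
    ⟨Op.sub, [50, t, 1, r], [65, t, r], [61, t, 2 * ee m n - 1]⟩]

/-- The right-hand side of the instance at `t`. -/
def bP (m n t : ℕ) : List Instr := (List.range (mm m n)).flatMap fun r => bI m n t r

/-- Names of the registers of the computation number `t`. -/
def pre (t : ℕ) (r : Reg) : Reg := if r = [2] ∨ r = [3] then r else 50 :: t :: r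

/-- Renaming. -/
def ren (t : ℕ) (I : Instr) : Instr := ⟨I.op, pre t I.dst, pre t I.fst, pre t I.snd⟩

/-- The program of the minor `R` at `t`; the value is in `[50, t, 11]`. -/
def minP (m n : ℕ) (R : Key) (t : ℕ) : List Instr :=
  (minorProg (mm m n) n (enc (mm m n) n R) 0).map (ren t)

/-- The computation number `t`. -/
def tP (m n : ℕ) (σ : List Bool) (R : Key) (t : ℕ) : List Instr :=
  powP (mx m n) t ++ (rP m n t ++ (aP m n σ t ++ (bP m n t ++ minP m n R t)))

/-- The iterated differences `[70, j, t]`, `j + t ≤ K`. -/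
def difP (K : ℕ) : List Instr :=
  (List.range (K + 1)).map (fun t => (⟨Op.add, [70, 0, t], [50, t, 11], [3]⟩ : Instr)) ++
    (List.range K).flatMap fun j => (List.range K).flatMap fun t =>
      if j + t < K then [(⟨Op.sub, [70, j + 1, t], [70, j, t + 1], [70, j, t]⟩ : Instr)] else []

/-- The program for the minor `R`. -/
def prg (m n : ℕ) (σ : List Bool) (R : Key) : List Instr :=
  numP (kk m n) ++ (uP m n σ ++
    ((List.range (kk m n + 1)).flatMap (tP m n σ R) ++ difP (kk m n)))

/-- The query for the difference number `j` of the minor `R`. -/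
def qd (m n : ℕ) (σ : List Bool) (R : Key) (j : ℕ) : Qry := (prg m n σ R, [70, j, 0])

/-! ### The computation -/

/-- The last nonzero sign. -/
def lead (l : List Outcome) : Outcome := ((l.filter fun x => decide (x ≠ none)).reverse.head?).getD none

/-- Asking for the signs of some minors, for large `T`. -/
def askT (m n : ℕ) (σ : List Bool) (ks : List Key) : TT Tab :=
  bnd (batch (ks.flatMap fun R => (List.range (kk m n + 1)).map fun j => qd m n σ R j)) fun o =>
    ret (ks.zipIdx.map fun p => (p.1, lead ((List.range (kk m n + 1)).map fun j =>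
      o.getD (p.2 * (kk m n + 1) + j) none)))

/-- The rows with a negative entry. -/
def sgnT (m n : ℕ) : TT (List Bool) :=
  bnd (batch ((List.range m).flatMap fun i => (List.range n).map fun j =>
      (([] : List Instr), ([0, i, j] : Reg)))) fun o =>
    ret ((List.range m).map fun i => (List.range n).any fun j =>
      decide (o.getD (i * n + j) none = some false))

/-- One step of the exchange algorithm. -/
def stpT (m n : ℕ) (σ : List Bool) (L L' : Tab) (s : St) : TT St :=
  bnd (askT m n σ (K2 (mm m n) n s.2.1)) fun M => ret (upd (mm m n) n L L' M s)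

/-- The computation, once the signs of the rows are known. -/
def mainT (m n : ℕ) (σ : List Bool) : TT Bool :=
  bnd (askT m n σ (K0 (mm m n) n)) fun L => bnd (askT m n σ (K1 (mm m n) n L)) fun L' =>
    bnd (iter (stpT m n σ L L') (itN (mm m n) n) s0) fun s => ret (fin (mm m n) n L s)

/-- The computation. -/
def topT (m n : ℕ) : TT Bool := bnd (sgnT m n) fun σ => mainT m n σ

/-- The algorithm. -/
def alg : Alg := algOf topT

/-! ### The instance -/

/-- The sign of the row `i`. -/
noncomputable def ss (σ : List Bool) (i : ℕ) : ℝ := if σ.getD i false = true then -1 else 1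

/-- The matrix `W`. -/
noncomputable def ww {m n : ℕ} (σ : List Bool) (A : Fin m → Fin n → ℝ) : Fin m → Fin n → ℝ :=
  fun i j => ss σ i * A i j

/-- The matrix `U`. -/
noncomputable def uu {m n : ℕ} (W : Fin m → Fin n → ℝ) (c : ℕ) (j : Fin n) : ℝ :=
  if c < n then (if c + j + 1 = n then (-1) ^ (j : ℕ) else 0)
  else if h : c - n < m then W ⟨c - n, h⟩ j else 0

/-- The matrix `R` at `T`. -/
noncomputable def rr {m n : ℕ} (W : Fin m → Fin n → ℝ) (T : ℝ) (a : ℕ) (j : Fin n) : ℝ :=
  ∑ c ∈ Finset.range (n + m), T ^ xp m n a c * uu W c j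

/-- The matrix of the instance at `T`. -/
noncomputable def AA {m n : ℕ} (σ : List Bool) (A : Fin m → Fin n → ℝ) (T : ℝ) :
    Fin (mm m n) → Fin n → ℝ :=
  fun r j => (if ngr n σ r = true then -1 else 1) * rr (ww σ A) T (psr n r) j

/-- The right-hand side of the instance at `T`. -/
noncomputable def BB {m : ℕ} (n : ℕ) (b : Fin m → ℝ) (T : ℝ) : Fin (mm m n) → ℝ := fun r =>
  if (r : ℕ) < n + n then - T ^ mx m n
  else T ^ (2 * ee m n) * (if h : (r : ℕ) - (n + n) < m then b ⟨r - (n + n), h⟩ else 0) -
    T ^ (2 * ee m n - 1)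

/-- The value of the minor `R` at `T`. -/
noncomputable def mv {m n : ℕ} (σ : List Bool) (A : Fin m → Fin n → ℝ) (b : Fin m → ℝ) (R : Key)
    (T : ℝ) : ℝ := val (AA σ A T) (BB n b T) R

/-- The iterated differences of the values of the minor `R`. -/
noncomputable def df {m n : ℕ} (σ : List Bool) (A : Fin m → Fin n → ℝ) (b : Fin m → ℝ) (R : Key)
    (j t : ℕ) : ℝ := (fwdDiff (1 : ℕ))^[j] (fun t : ℕ => mv σ A b R t) t

/-- The entries of `U`, for natural number indices. -/
noncomputable def ue {m n : ℕ} (W : Fin m → Fin n → ℝ) (c j : ℕ) : ℝ :=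
  if h : j < n then uu W c ⟨j, h⟩ else 0

/-- The values of the registers. -/
noncomputable def vv {m n : ℕ} (σ : List Bool) (A : Fin m → Fin n → ℝ) (b : Fin m → ℝ) (R : Key) :
    Reg → ℝ
  | [60, t] => (t : ℝ)
  | [61, t, s] => (t : ℝ) ^ s
  | [62, c, j] => ue (ww σ A) c j
  | [63, t, a, j, c] => (t : ℝ) ^ xp m n a c * ue (ww σ A) c j
  | [64, t, a, j, c] => ∑ c' ∈ Finset.range c, (t : ℝ) ^ xp m n a c' * ue (ww σ A) c' j
  | [65, t, r] => (t : ℝ) ^ (2 * ee m n) * (if h : r - (n + n) < m then b ⟨r - (n + n), h⟩ else 0)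
  | 50 :: t :: r => vreg (mm m n) n (enc (mm m n) n R) 0 (AA σ A t, BB n b t) r
  | [70, j, t] => df σ A b R j t
  | r => start A b r

/-! ### The class -/

/-- All minors are nonnegative. -/
def TNN {m n : ℕ} (W : Fin m → Fin n → ℝ) : Prop :=
  ∀ (k : ℕ) (f : Fin k → Fin m) (g : Fin k → Fin n), StrictMono f → StrictMono g →
    0 ≤ (Matrix.of fun i j => W (f i) (g j)).det

/-- The rows are, up to signs, the rows of a totally nonnegative matrix. -/
def Cls (m n : ℕ) (A : Matrix (Fin m) (Fin n) ℝ) : Prop :=
  ∃ s : Fin m → ℝ, (∀ i, s i = 1 ∨ s i = -1) ∧ TNN fun i j => s i * A i j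

/-- The true table for large `T`. -/
noncomputable def tl {m n : ℕ} (σ : List Bool) (A : Fin m → Fin n → ℝ) (b : Fin m → ℝ)
    (ks : List Key) : Tab :=
  ks.map fun R => (R, lead ((List.range (kk m n + 1)).map fun j => signOut (df σ A b R j 0)))

/-- The polynomial bound for the size of the numbers. -/
noncomputable def Smt {m n : ℕ} (p : Polynomial ℕ) (A : Fin m → Fin n → ℝ) (b : Fin m → ℝ)
    (v : ℝ) : Prop :=
  ∀ (A' : Matrix (Fin m) (Fin n) ℚ) (b' : Fin m → ℚ), (∀ i j, ((A' i j : ℚ) : ℝ) = A i j) →
    (∀ i, ((b' i : ℚ) : ℝ) = b i) → ∃ q : ℚ, (q : ℝ) = v ∧ bitLength q ≤ p.eval (inputLength A' b')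

end Pool.Agent.L7h65.TN
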