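import Pool.Agent.L7h65.TN.Stm

set_option autoImplicit false

/-!
# The minors are polynomials in `T`
-/

namespace Pool.Agent.L7h65.TN

open Pool.Agent.NPC Pool.Agent.H558R2 Pool.Agent.H622R3.SM Pool.Agent.W920.FC Pool.Agent.L7h61.CH
open Polynomial

theorem natDegree_det_le {k : ℕ} (M : Matrix (Fin k) (Fin k) ℝ[X]) (d : ℕ)
    (h : ∀ i j, (M i j).natDegree ≤ d) : M.det.natDegree ≤ k * d := by
  rw [Matrix.det_apply']
  refine Polynomial.natDegree_sum_le_of_forall_le _ _ fun σ _ => ?_
  have h1 : (∏ i, M (σ i) i).natDegree ≤ k * d := by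
    refine (Polynomial.natDegree_prod_le _ _).trans ?_
    refine (Finset.sum_le_card_nsmul _ _ d fun i _ => h _ _).trans ?_
    simp
  have h2 : ((((Equiv.Perm.sign σ : ℤˣ) : ℤ) : ℝ[X])).natDegree = 0 := Polynomial.natDegree_intCast _
  exact (Polynomial.natDegree_mul_le).trans (by omega)

variable {m n : ℕ}

/-- The polynomial matrix `R`. -/
noncomputable def rp (W : Fin m → Fin n → ℝ) (a : ℕ) (j : Fin n) : ℝ[X] :=
  ∑ c ∈ Finset.range (n + m), X ^ xp m n a c * C (uu W c j)

/-- The polynomial matrix of the instance. -/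
noncomputable def Ap (σ : List Bool) (A : Fin m → Fin n → ℝ) : Fin (mm m n) → Fin n → ℝ[X] :=
  fun r j => C (if ngr n σ r = true then -1 else 1) * rp (ww σ A) (psr n r) j

/-- The polynomial right-hand side. -/
noncomputable def Bp (n : ℕ) (b : Fin m → ℝ) : Fin (mm m n) → ℝ[X] := fun r =>
  if (r : ℕ) < n + n then - X ^ mx m n
  else X ^ (2 * ee m n) * C (if h : (r : ℕ) - (n + n) < m then b ⟨r - (n + n), h⟩ else 0) -
    X ^ (2 * ee m n - 1)

theorem eval_Ap (σ : List Bool) (A : Fin m → Fin n → ℝ) (T : ℝ) (r : Fin (mm m n)) (j : Fin n) :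
    (Ap σ A r j).eval T = AA σ A T r j := by
  unfold Ap AA rp rr
  rw [Polynomial.eval_mul, Polynomial.eval_C, Polynomial.eval_finsetSum]
  congr 1
  refine Finset.sum_congr rfl fun c _ => ?_
  rw [Polynomial.eval_mul, Polynomial.eval_pow, Polynomial.eval_X, Polynomial.eval_C]

theorem eval_Bp (b : Fin m → ℝ) (T : ℝ) (r : Fin (mm m n)) :
    (Bp n b r).eval T = BB n b T r := by
  unfold Bp BB
  split_ifs
  · rw [Polynomial.eval_neg, Polynomial.eval_pow, Polynomial.eval_X]
  · rw [Polynomial.eval_sub, Polynomial.eval_mul, Polynomial.eval_pow, Polynomial.eval_pow,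
      Polynomial.eval_X, Polynomial.eval_C]
  · rw [Polynomial.eval_sub, Polynomial.eval_mul, Polynomial.eval_pow, Polynomial.eval_pow,
      Polynomial.eval_X, Polynomial.eval_C]

theorem deg_Ap (σ : List Bool) (A : Fin m → Fin n → ℝ) (r : Fin (mm m n)) (j : Fin n) :
    (Ap σ A r j).natDegree ≤ mx m n := by
  unfold Ap rp
  refine (Polynomial.natDegree_C_mul_le _ _).trans ?_
  refine Polynomial.natDegree_sum_le_of_forall_le _ _ fun c _ => ?_
  refine (Polynomial.natDegree_mul_C_le _ _).trans ?_
  rw [Polynomial.natDegree_X_pow]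
  unfold xp mx
  omega

theorem deg_Bp (b : Fin m → ℝ) (r : Fin (mm m n)) : (Bp n b r).natDegree ≤ mx m n := by
  unfold Bp
  split_ifs with h1 h2
  · rw [Polynomial.natDegree_neg, Polynomial.natDegree_X_pow]
  · refine (Polynomial.natDegree_sub_le _ _).trans ?_
    refine max_le ((Polynomial.natDegree_mul_C_le _ _).trans ?_) ?_
    · rw [Polynomial.natDegree_X_pow]; unfold mx; omega
    · rw [Polynomial.natDegree_X_pow]; unfold mx; omega
  · refine (Polynomial.natDegree_sub_le _ _).trans ?_
    refine max_le ((Polynomial.natDegree_mul_C_le _ _).trans ?_) ?_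
    · rw [Polynomial.natDegree_X_pow]; unfold mx; omega
    · rw [Polynomial.natDegree_X_pow]; unfold mx; omega

theorem s_deg : S_DEG := by
  intro m n σ A b R hn
  refine ⟨(Matrix.of fun i j => wmat (Ap σ A) (Bp n b) i (beta (mm m n) n (enc (mm m n) n R) 0 j)).det,
    natDegree_det_le _ _ fun i j => ?_, fun T => ?_⟩
  · rw [Matrix.of_apply]
    cases h : beta (mm m n) n (enc (mm m n) n R) 0 j with
    | none =>
      show (- Bp n b i).natDegree ≤ _
      rw [Polynomial.natDegree_neg]
      exact deg_Bp b i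
    | some k =>
      show (colEntry (Ap σ A) i ((colEquiv (mm m n) n).symm k)).natDegree ≤ _
      rcases (colEquiv (mm m n) n).symm k with r' | c | c
      · show (if i = r' then (1 : ℝ[X]) else 0).natDegree ≤ _
        split_ifs <;> simp
      · show (- Ap σ A i c).natDegree ≤ _
        rw [Polynomial.natDegree_neg]
        exact deg_Ap σ A i c
      · exact deg_Ap σ A i c
  · unfold mv Pool.Agent.L7h61.CH.val dd
    have h1 : ∀ M : Matrix (Fin (mm m n)) (Fin (mm m n)) ℝ[X],
        M.det.eval T = (M.map fun p => p.eval T).det := by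
      intro M
      have := RingHom.map_det (Polynomial.evalRingHom T) M
      simpa using this
    rw [h1]
    congr 1
    ext i j
    rw [Matrix.map_apply, Matrix.of_apply, Matrix.of_apply]
    cases h : beta (mm m n) n (enc (mm m n) n R) 0 j with
    | none =>
      show (- Bp n b i).eval T = - BB n b T i
      rw [Polynomial.eval_neg, eval_Bp]
    | some k =>
      show (colEntry (Ap σ A) i ((colEquiv (mm m n) n).symm k)).eval T =
        colEntry (AA σ A T) i ((colEquiv (mm m n) n).symm k)
      rcases (colEquiv (mm m n) n).symm k with r' | c | c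
      · show (if i = r' then (1 : ℝ[X]) else 0).eval T = if i = r' then (1 : ℝ) else 0
        split_ifs <;> simp
      · show (- Ap σ A i c).eval T = - AA σ A T i c
        rw [Polynomial.eval_neg, eval_Ap]
      · exact eval_Ap σ A T i c

end Pool.Agent.L7h65.TN
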