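import Pool.Agent.L7h65.TN.Stm

set_option autoImplicit false

/-!
# The sign of a polynomial at infinity, from its iterated differences
-/

namespace Pool.Agent.L7h65.TN

open Pool.Agent.NPC Pool.Agent.H558R2 Pool.Agent.H622R3.SM Pool.Agent.W920.FC Pool.Agent.L7h61.CH
open Filter Polynomial

theorem fwd_cast (f : ℝ → ℝ) (j : ℕ) : ∀ t : ℕ,
    (fwdDiff (1 : ℕ))^[j] (fun t : ℕ => f (t : ℝ)) t = (fwdDiff (1 : ℝ))^[j] f (t : ℝ) := by
  induction j with
  | zero => intro t; rfl
  | succ j ih =>
    intro t
    rw [Function.iterate_succ_apply', Function.iterate_succ_apply']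
    unfold fwdDiff at ih ⊢
    rw [ih, ih]
    push_cast
    rfl

theorem ev_sign (P : ℝ[X]) : ∀ᶠ T : ℝ in atTop, signOut (P.eval T) = signOut P.leadingCoeff := by
  rcases lt_trichotomy P.leadingCoeff 0 with h | h | h
  · rw [signOut_neg h]
    by_cases hd : P.degree ≤ 0
    · have h1 := Polynomial.eq_C_of_degree_le_zero hd
      have h2 : P.leadingCoeff = P.coeff 0 := by
        rw [h1, Polynomial.leadingCoeff_C, Polynomial.coeff_C_zero]
      refine Eventually.of_forall fun T => ?_
      rw [h1, Polynomial.eval_C]
      exact signOut_neg (h2 ▸ h)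
    · have h1 := Polynomial.tendsto_atBot_of_leadingCoeff_nonpos P (not_le.1 hd) h.le
      filter_upwards [h1.eventually (eventually_lt_atBot 0)] with T hT
      exact signOut_neg hT
  · rw [Polynomial.leadingCoeff_eq_zero] at h
    rw [h]
    simp
  · rw [signOut_pos h]
    by_cases hd : P.degree ≤ 0
    · have h1 := Polynomial.eq_C_of_degree_le_zero hd
      have h2 : P.leadingCoeff = P.coeff 0 := by
        rw [h1, Polynomial.leadingCoeff_C, Polynomial.coeff_C_zero]
      refine Eventually.of_forall fun T => ?_
      rw [h1, Polynomial.eval_C]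
      exact signOut_pos (h2 ▸ h)
    · have h1 := Polynomial.tendsto_atTop_of_leadingCoeff_nonneg P (not_le.1 hd) h.le
      filter_upwards [h1.eventually (eventually_gt_atTop 0)] with T hT
      exact signOut_pos hT

theorem lead_zero (l : List Outcome) (h : ∀ x ∈ l, x = none) : lead l = none := by
  unfold lead
  have : l.filter (fun x => decide (x ≠ none)) = [] := by
    rw [List.filter_eq_nil_iff]
    intro x hx
    simp [h x hx]
  rw [this]
  rfl

theorem lead_app (l l' : List Outcome) (x : Outcome) (hx : x ≠ none) (h : ∀ y ∈ l', y = none) :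
    lead (l ++ (x :: l')) = x := by
  unfold lead
  have h1 : l'.filter (fun x => decide (x ≠ none)) = [] := by
    rw [List.filter_eq_nil_iff]
    intro x hx
    simp [h x hx]
  rw [List.filter_append, List.filter_cons, if_pos (by simpa using hx), h1, List.reverse_append]
  rfl

theorem s_dif : S_DIF := by
  intro P K hK
  filter_upwards [ev_sign P] with T hT
  rw [hT]
  have h0 : ∀ j : ℕ, (fwdDiff (1 : ℕ))^[j] (fun t : ℕ => P.eval (t : ℝ)) 0 =
      (fwdDiff (1 : ℝ))^[j] P.eval 0 := by
    intro j
    have := fwd_cast (fun x => P.eval x) j 0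
    rw [this]
    simp
  by_cases hP : P = 0
  · subst hP
    rw [lead_zero]
    · simp [signOut_zero]
    · intro x hx
      obtain ⟨j, _, rfl⟩ := List.mem_map.1 hx
      rw [h0, signOut_eq_none]
      by_cases hj : j = 0
      · subst hj; simp
      · have := Polynomial.fwdDiff_iter_eq_zero_of_degree_lt (P := (0 : ℝ[X])) (n := j)
          (by simpa using Nat.pos_of_ne_zero hj)
        rw [this]; rfl
  · have h1 : (fwdDiff (1 : ℝ))^[P.natDegree] P.eval 0 = P.leadingCoeff * (P.natDegree.factorial : ℝ) := by
      rw [Polynomial.fwdDiff_iter_degree_eq_factorial]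
      simp
    have h2 : signOut ((fwdDiff (1 : ℝ))^[P.natDegree] P.eval 0) = signOut P.leadingCoeff := by
      rw [h1]
      have hf : (0 : ℝ) < (P.natDegree.factorial : ℝ) := by exact_mod_cast Nat.factorial_pos _
      rcases lt_trichotomy P.leadingCoeff 0 with h | h | h
      · rw [signOut_neg h, signOut_neg (mul_neg_of_neg_of_pos h hf)]
      · rw [h, zero_mul]
      · rw [signOut_pos h, signOut_pos (mul_pos h hf)]
    have h3 : signOut P.leadingCoeff ≠ none := by
      rw [Ne, signOut_eq_none, Polynomial.leadingCoeff_eq_zero]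
      exact hP
    have e : (List.range (K + 1)) = List.range P.natDegree ++
        (P.natDegree :: ((List.range (K - P.natDegree)).map fun i => P.natDegree + 1 + i)) := by
      have e1 : K + 1 = (P.natDegree + 1) + (K - P.natDegree) := by omega
      rw [e1, List.range_add, List.range_succ, List.append_assoc]
      rfl
    rw [e, List.map_append, List.map_cons, lead_app]
    · rw [h0, h2]
    · rw [h0, h2]; exact h3
    · intro y hy
      rw [List.map_map] at hy
      obtain ⟨i, _, rfl⟩ := List.mem_map.1 hy
      rw [Function.comp_apply, h0, signOut_eq_none,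
        Polynomial.fwdDiff_iter_eq_zero_of_degree_lt (by omega)]
      rfl

end Pool.Agent.L7h65.TN
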