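import Pool.Agent.L7h65.TN.Read
import Pool.Agent.W920.FC.T_ORD1

set_option autoImplicit false

/-!
# The program of a query is well ordered
-/

namespace Pool.Agent.L7h65.TN

open Pool.Agent.NPC Pool.Agent.H558R2 Pool.Agent.H622R3.SM Pool.Agent.W920.FC Pool.Agent.L7h61.CH
open Pool.Agent.W920.FC.TORD1

/-! ### General lemmas -/

theorem ord_not_mem : ∀ (P : List Instr) (S : Set Reg), Ord S P → ∀ r ∈ wr P, r ∉ S := by
  intro P
  induction P with
  | nil => intro S _ r hr; obtain ⟨I, hI, _⟩ := hr; simp at hI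
  | cons I P ih =>
    intro S h r hr
    obtain ⟨h1, h2, h3, h4⟩ := h
    rw [wr_cons] at hr
    rcases hr with hr | hr
    · rw [Set.mem_singleton_iff] at hr
      rw [hr]; exact h3
    · intro hS
      exact ih _ h4 r hr (Or.inr hS)

theorem ord_ext : ∀ (P : List Instr) (S S' : Set Reg), Ord S P → S ⊆ S' → (∀ r ∈ wr P, r ∉ S') →
    Ord S' P := by
  intro P
  induction P with
  | nil => intro S S' _ _ _; trivial
  | cons I P ih =>
    intro S S' h hS hd
    have h0 := ord_not_mem _ _ h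
    obtain ⟨h1, h2, h3, h4⟩ := h
    refine ⟨hS h1, hS h2, hd _ ⟨I, List.mem_cons_self, rfl⟩, ih _ _ h4 (Set.insert_subset_insert hS) ?_⟩
    intro r hr hr'
    rcases hr' with hr' | hr'
    · subst hr'
      exact ord_not_mem _ _ h4 _ hr (Or.inl rfl)
    · obtain ⟨J, hJ, hJ'⟩ := hr
      exact hd r ⟨J, List.mem_cons_of_mem _ hJ, hJ'⟩ hr'

theorem pre_inj (t : ℕ) {r s : Reg} (h : pre t r = pre t s) : r = s := by
  unfold pre at h
  split_ifs at h with h1 h2 h2
  · exact h
  · rcases h1 with h1 | h1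
    · rw [h1] at h; simp at h
    · rw [h1] at h; simp at h
  · rcases h2 with h2 | h2
    · rw [h2] at h; simp at h
    · rw [h2] at h; simp at h
  · simpa using h

theorem ord_ren (t : ℕ) : ∀ (P : List Instr) (S S' : Set Reg), Ord S P →
    (∀ I ∈ P, ∀ r, (r = I.fst ∨ r = I.snd) → r ∈ S → pre t r ∈ S') →
    (∀ I ∈ P, pre t I.dst ∉ S') → Ord S' (P.map (ren t)) := by
  intro P
  induction P with
  | nil => intro S S' _ _ _; trivial
  | cons I P ih =>
    intro S S' h h1 h2
    obtain ⟨g1, g2, g3, g4⟩ := h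
    refine ⟨h1 I List.mem_cons_self _ (Or.inl rfl) g1, h1 I List.mem_cons_self _ (Or.inr rfl) g2,
      h2 I List.mem_cons_self, ih _ _ g4 ?_ ?_⟩
    · intro J hJ r hr hrS
      rcases hrS with hrS | hrS
      · left
        rw [hrS]; rfl
      · exact Or.inr (h1 J (List.mem_cons_of_mem _ hJ) r hr hrS)
    · intro J hJ hJ'
      rcases hJ' with hJ' | hJ'
      · have h3 := pre_inj t hJ'
        exact ord_not_mem _ _ g4 J.dst ⟨J, hJ, rfl⟩ (Or.inl h3)
      · exact h2 J (List.mem_cons_of_mem _ hJ) hJ'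

theorem ord_append' {S : Set Reg} {P Q : List Instr} (h1 : Ord S P) (h2 : Ord (S ∪ wr P) Q) :
    Ord S (P ++ Q) := (ord_append S P Q).2 ⟨h1, h2⟩

/-- A chain. -/
theorem ord_chain (S : Set Reg) (x : ℕ → Reg) (hx : Function.Injective x) (I0 : Instr)
    (f : ℕ → Instr) (p : ℕ) (h0 : I0.dst = x 0) (h01 : I0.fst ∈ S) (h02 : I0.snd ∈ S)
    (hf : ∀ s, (f s).dst = x (s + 1))
    (hf1 : ∀ s < p, (f s).fst ∈ S ∨ (f s).fst = x s) (hf2 : ∀ s < p, (f s).snd ∈ S)
    (hd : ∀ s, x s ∉ S) :
    Ord S (I0 :: (List.range p).map f) ∧ wr (I0 :: (List.range p).map f) = {r | ∃ s ≤ p, r = x s} := by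
  have hw : ∀ r, r ∈ wr ((List.range p).map f) ↔ ∃ s < p, r = x (s + 1) := by
    intro r
    rw [map_range_eq, mem_wr_range]
    refine exists_congr fun s => and_congr_right fun _ => ?_
    rw [mem_wr]
    simp only [List.mem_singleton, exists_eq_left]
    rw [hf, eq_comm]
  constructor
  · rw [ord_cons]
    refine ⟨h01, h02, by rw [h0]; exact hd 0, ?_⟩
    rw [map_range_eq]
    refine ord_range _ _ _ fun i hi => ?_
    have hw' : {r | ∃ j < i, r ∈ wr [f j]} = {r | ∃ s < i, r = x (s + 1)} := by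
      ext r
      simp only [Set.mem_setOf_eq]
      refine exists_congr fun s => and_congr_right fun _ => ?_
      rw [mem_wr]
      simp only [List.mem_singleton, exists_eq_left]
      rw [hf, eq_comm]
    rw [hw', ord_cons]
    refine ⟨?_, Or.inl (Or.inl (hf2 i hi)), ?_, trivial⟩
    · rcases hf1 i hi with h | h
      · exact Or.inl (Or.inl h)
      · rw [h]
        cases i with
        | zero => exact Or.inl (Or.inr (by rw [h0]; rfl))
        | succ i => exact Or.inr ⟨i, by omega, rfl⟩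
    · rw [hf]
      rintro ((h | h) | ⟨s, hs, h⟩)
      · exact hd _ h
      · rw [h0, Set.mem_singleton_iff] at h
        have := hx h
        omega
      · have := hx h
        omega
  · ext r
    rw [wr_cons, Set.mem_union, hw, Set.mem_singleton_iff, h0, Set.mem_setOf_eq]
    constructor
    · rintro (h | ⟨s, hs, h⟩)
      · exact ⟨0, by omega, h⟩
      · exact ⟨s + 1, by omega, h⟩
    · rintro ⟨s, hs, h⟩
      cases s with
      | zero => exact Or.inl h
      | succ s => exact Or.inr ⟨s, by omega, h⟩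

/-- Independent instructions. -/
theorem ord_indep (S : Set Reg) : ∀ (P : List Instr), (P.map fun I => I.dst).Nodup →
    (∀ I ∈ P, I.fst ∈ S ∧ I.snd ∈ S ∧ I.dst ∉ S) → Ord S P := by
  intro P hnd h
  suffices H : ∀ (P : List Instr) (S' : Set Reg), (P.map fun I => I.dst).Nodup → S ⊆ S' →
      (∀ I ∈ P, I.fst ∈ S ∧ I.snd ∈ S ∧ I.dst ∉ S') → Ord S' P from H P S hnd le_rfl h
  intro P
  induction P with
  | nil => intro _ _ _ _; trivial
  | cons I P ih =>
    intro S' hnd hS h
    rw [List.map_cons, List.nodup_cons] at hnd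
    obtain ⟨h1, h2, h3⟩ := h I List.mem_cons_self
    refine ⟨hS h1, hS h2, h3, ih _ hnd.2 (hS.trans (Set.subset_insert _ _)) ?_⟩
    intro J hJ
    obtain ⟨g1, g2, g3⟩ := h J (List.mem_cons_of_mem _ hJ)
    refine ⟨g1, g2, ?_⟩
    rintro (h4 | h4)
    · exact hnd.1 (List.mem_map.2 ⟨J, hJ, h4⟩)
    · exact g3 h4

/-! ### The parts -/

theorem hb2 : ([2] : Reg) ∈ baseReg := b2
theorem hb3 : ([3] : Reg) ∈ baseReg := b3

theorem nb {h : ℕ} {r : Reg} (hh : 4 ≤ h) : (h :: r : Reg) ∉ baseReg := by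
  unfold baseReg
  simp only [Set.mem_setOf_eq, List.headD_cons, not_lt]
  exact hh

theorem ord_num (K : ℕ) : Ord baseReg (numP K) ∧ wr (numP K) = {r | ∃ s ≤ K, r = [60, s]} := by
  refine ord_chain baseReg (fun s => [60, s]) (fun a b h => by simpa using h) _ _ K rfl hb3 hb3
    (fun s => rfl) (fun s _ => Or.inr rfl) (fun s _ => hb2) (fun s => nb (by norm_num))

theorem uI_dst (n : ℕ) (σ : List Bool) (c j : ℕ) : (uI n σ c j).dst = [62, c, j] := by
  unfold uI
  split_ifs <;> rfl

theorem wr_u (m n : ℕ) (σ : List Bool) :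
    wr (uP m n σ) = {r | ∃ c < n + m, ∃ j < n, r = [62, c, j]} := by
  ext r
  unfold uP
  rw [mem_wr_range, Set.mem_setOf_eq]
  refine exists_congr fun c => and_congr_right fun _ => ?_
  rw [map_range_eq, mem_wr_range]
  refine exists_congr fun j => and_congr_right fun _ => ?_
  rw [mem_wr]
  simp only [List.mem_singleton, exists_eq_left]
  rw [uI_dst, eq_comm]

theorem nodup_fm {α β : Type} (a b : ℕ) (f : ℕ → ℕ → β) (hf : ∀ i j i' j', f i j = f i' j' →
    i = i' ∧ j = j') (g : α → β) (h : ℕ → ℕ → α) (hg : ∀ i j, g (h i j) = f i j) :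
    (((List.range a).flatMap fun i => (List.range b).map fun j => h i j).map g).Nodup := by
  rw [List.map_flatMap]
  rw [List.nodup_flatMap]
  refine ⟨fun i _ => ?_, ?_⟩
  · rw [List.map_map]
    refine List.Nodup.map_on ?_ List.nodup_range
    intro x _ y _ hxy
    simp only [Function.comp_apply, hg] at hxy
    exact (hf _ _ _ _ hxy).2
  · refine List.Pairwise.imp_of_mem ?_ List.pairwise_lt_range
    intro i i' _ _ hii
    simp only [Function.onFun]
    rw [List.disjoint_left]
    intro z hz hz'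
    simp only [List.map_map, List.mem_map, List.mem_range, Function.comp_apply, hg] at hz hz'
    obtain ⟨j, _, rfl⟩ := hz
    obtain ⟨j', _, h2⟩ := hz'
    have := (hf _ _ _ _ h2).1
    omega

theorem ord_u (m n : ℕ) (σ : List Bool) : Ord baseReg (uP m n σ) := by
  refine ord_indep _ _ ?_ ?_
  · unfold uP
    exact nodup_fm (n + m) n (fun c j => ([62, c, j] : Reg)) (fun i j i' j' h => by simpa using h)
      (fun I : Instr => I.dst) (fun c j => uI n σ c j) (fun c j => uI_dst n σ c j)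
  · intro I hI
    unfold uP at hI
    simp only [List.mem_flatMap, List.mem_map, List.mem_range] at hI
    obtain ⟨c, hc, j, hj, rfl⟩ := hI
    refine ⟨?_, ?_, by rw [uI_dst]; exact nb (by norm_num)⟩
    · unfold uI
      split_ifs
      · exact hb2
      · exact hb3
      · exact hb3
      · exact hb3
      · unfold baseReg; simp
    · unfold uI
      split_ifs
      · exact hb3
      · exact hb2
      · exact hb3
      · unfold baseReg; simp
      · exact hb3

/-- The registers available before the computations. -/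
def S0 (m n : ℕ) : Set Reg := baseReg ∪ {r | ∃ s ≤ kk m n, r = [60, s]} ∪
  {r | ∃ c < n + m, ∃ j < n, r = [62, c, j]}

theorem base_S0 (m n : ℕ) : baseReg ⊆ S0 m n := fun _ h => Or.inl (Or.inl h)

theorem nS0 {m n h : ℕ} {r : Reg} (h1 : 4 ≤ h) (h2 : h ≠ 60) (h3 : h ≠ 62) :
    (h :: r : Reg) ∉ S0 m n := by
  rintro ((h' | ⟨s, _, h'⟩) | ⟨c, _, j, _, h'⟩)
  · exact nb h1 h'
  · simp only [List.cons.injEq] at h'; exact h2 h'.1
  · simp only [List.cons.injEq] at h'; exact h3 h'.1

theorem ord_pow (m n t : ℕ) (ht : t ≤ kk m n) : Ord (S0 m n) (powP (mx m n) t) ∧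
    wr (powP (mx m n) t) = {r | ∃ s ≤ mx m n, r = [61, t, s]} := by
  refine ord_chain (S0 m n) (fun s => [61, t, s]) (fun a b h => by simpa using h) _ _ _ rfl
    (base_S0 m n hb2) (base_S0 m n hb3) (fun s => rfl) (fun s _ => Or.inr rfl)
    (fun s _ => Or.inl (Or.inr ⟨t, ht, rfl⟩))
    (fun s => nS0 (by norm_num) (by norm_num) (by norm_num))

/-- The registers after the powers. -/
def S1 (m n t : ℕ) : Set Reg := S0 m n ∪ {r | ∃ s ≤ mx m n, r = [61, t, s]}

theorem nS1 {m n t h : ℕ} {r : Reg} (h1 : 4 ≤ h) (h2 : h ≠ 60) (h3 : h ≠ 62) (h4 : h ≠ 61) :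
    (h :: r : Reg) ∉ S1 m n t := by
  rintro (h' | ⟨s, _, h'⟩)
  · exact nS0 h1 h2 h3 h'
  · simp only [List.cons.injEq] at h'; exact h4 h'.1

theorem xp_le (m n a c : ℕ) : xp m n a c ≤ mx m n := by
  unfold xp mx
  omega

/-- The row of partial sums. -/
def rR (m n t a j : ℕ) : List Instr :=
  (⟨Op.add, [64, t, a, j, 0], [3], [3]⟩ : Instr) ::
      (List.range (n + m)).flatMap fun c =>
        [(⟨Op.mul, [63, t, a, j, c], [61, t, xp m n a c], [62, c, j]⟩ : Instr),
          ⟨Op.add, [64, t, a, j, c + 1], [64, t, a, j, c], [63, t, a, j, c]⟩]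

theorem wr_rR (m n t a j : ℕ) (r : Reg) : r ∈ wr (rR m n t a j) ↔
    (∃ c ≤ n + m, r = [64, t, a, j, c]) ∨ ∃ c < n + m, r = [63, t, a, j, c] := by
  unfold rR
  rw [wr_cons, Set.mem_union, Set.mem_singleton_iff, mem_wr_range]
  simp only [mem_wr, List.mem_cons, List.not_mem_nil, or_false, exists_eq_or_imp, exists_eq_left]
  constructor
  · rintro (h | ⟨c, hc, h | h⟩)
    · exact Or.inl ⟨0, by omega, h⟩
    · exact Or.inr ⟨c, hc, h.symm⟩
    · exact Or.inl ⟨c + 1, by omega, h.symm⟩
  · rintro (⟨c, hc, h⟩ | ⟨c, hc, h⟩)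
    · cases c with
      | zero => exact Or.inl h
      | succ c => exact Or.inr ⟨c, by omega, Or.inr h.symm⟩
    · exact Or.inr ⟨c, hc, Or.inl h.symm⟩

theorem ord_rR (m n t a j : ℕ) (hj : j < n) : Ord (S1 m n t) (rR m n t a j) := by
  unfold rR
  rw [ord_cons]
  refine ⟨Or.inl (base_S0 m n hb3), Or.inl (base_S0 m n hb3),
    nS1 (by norm_num) (by norm_num) (by norm_num) (by norm_num), ?_⟩
  refine ord_range _ _ _ fun c hc => ?_
  have hw : ∀ r, r ∈ {r | ∃ j' < c, r ∈ wr [(⟨Op.mul, [63, t, a, j, j'], [61, t, xp m n a j'], [62, j', j]⟩ : Instr),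
          ⟨Op.add, [64, t, a, j, j' + 1], [64, t, a, j, j'], [63, t, a, j, j']⟩]} ↔
          ∃ j' < c, r = [63, t, a, j, j'] ∨ r = [64, t, a, j, j' + 1] := by
    intro r
    rw [Set.mem_setOf_eq]
    refine exists_congr fun j' => and_congr_right fun _ => ?_
    simp only [mem_wr, List.mem_cons, List.not_mem_nil, or_false, exists_eq_or_imp, exists_eq_left]
    exact or_congr eq_comm eq_comm
  rw [ord_cons, ord_cons]
  refine ⟨Or.inl (Or.inl (Or.inr ⟨_, xp_le m n a c, rfl⟩)),
    Or.inl (Or.inl (Or.inl (Or.inr ⟨c, hc, j, hj, rfl⟩))), ?_, ?_, ?_, ?_, trivial⟩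
  · rintro ((h | h) | h)
    · exact nS1 (by norm_num) (by norm_num) (by norm_num) (by norm_num) h
    · simp at h
    · obtain ⟨j', hj', h | h⟩ := (hw _).1 h
      · simp at h; omega
      · simp at h
  · left
    cases c with
    | zero => exact Or.inl (Or.inr rfl)
    | succ c => exact Or.inr ((hw _).2 ⟨c, by omega, Or.inr rfl⟩)
  · exact Or.inr rfl
  · rintro (((h | h) | h) | h)
    · exact nS1 (by norm_num) (by norm_num) (by norm_num) (by norm_num) h
    · simp at h
    · obtain ⟨j', hj', h | h⟩ := (hw _).1 h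
      · simp at h
      · simp at h; omega
    · simp at h

theorem wr_r (m n t : ℕ) (r : Reg) : r ∈ wr (rP m n t) ↔ ∃ a < n + m, ∃ j < n,
    (∃ c ≤ n + m, r = [64, t, a, j, c]) ∨ ∃ c < n + m, r = [63, t, a, j, c] := by
  unfold rP
  rw [mem_wr_range]
  refine exists_congr fun a => and_congr_right fun _ => ?_
  rw [mem_wr_range]
  refine exists_congr fun j => and_congr_right fun _ => ?_
  exact wr_rR m n t a j r

theorem ord_r (m n t : ℕ) : Ord (S1 m n t) (rP m n t) := by
  unfold rP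
  refine ord_range _ _ _ fun a ha => ?_
  refine ord_range _ _ _ fun j hj => ?_
  refine ord_ext _ _ _ (ord_rR m n t a j hj) ?_ ?_
  · intro r hr
    exact Or.inl (Or.inl hr)
  · intro r hr
    have h1 := (wr_rR m n t a j r).1 hr
    rintro ((h | h) | h)
    · exact ord_not_mem _ _ (ord_rR m n t a j hj) r hr h
    · obtain ⟨a', ha', h⟩ := h
      rw [mem_wr_range] at h
      obtain ⟨j', hj', h⟩ := h
      have h2 := (wr_rR m n t a' j' r).1 h
      rcases h1 with ⟨c, hc, h1⟩ | ⟨c, hc, h1⟩ <;> rcases h2 with ⟨c', hc', h2⟩ | ⟨c', hc', h2⟩ <;>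
        rw [h1] at h2 <;> simp at h2 <;> omega
    · obtain ⟨j', hj', h⟩ := h
      have h2 := (wr_rR m n t a j' r).1 h
      rcases h1 with ⟨c, hc, h1⟩ | ⟨c, hc, h1⟩ <;> rcases h2 with ⟨c', hc', h2⟩ | ⟨c', hc', h2⟩ <;>
        rw [h1] at h2 <;> simp at h2 <;> omega

/-- The registers after the matrix `R`. -/
def S2 (m n t : ℕ) : Set Reg := S1 m n t ∪ wr (rP m n t)

theorem nS2 {m n t h : ℕ} {r : Reg} (h1 : 4 ≤ h) (h2 : h ≠ 60) (h3 : h ≠ 62) (h4 : h ≠ 61)
    (h5 : h ≠ 64) (h6 : h ≠ 63) : (h :: r : Reg) ∉ S2 m n t := by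
  rintro (h' | h')
  · exact nS1 h1 h2 h3 h4 h'
  · obtain ⟨a, _, j, _, ⟨c, _, h'⟩ | ⟨c, _, h'⟩⟩ := (wr_r m n t _).1 h'
    · simp only [List.cons.injEq] at h'; exact h5 h'.1
    · simp only [List.cons.injEq] at h'; exact h6 h'.1

theorem base_S2 (m n t : ℕ) : baseReg ⊆ S2 m n t := fun _ h => Or.inl (Or.inl (base_S0 m n h))

theorem psr_lt' {m n r : ℕ} (hr : r < mm m n) : psr n r < n + m := by
  unfold psr
  unfold mm at hr
  split_ifs with h <;> omega

theorem aI_dst (m n : ℕ) (σ : List Bool) (t r j : ℕ) : (aI m n σ t r j).dst = [50, t, 0, r, j] := by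
  unfold aI
  split_ifs <;> rfl

theorem wr_a (m n : ℕ) (σ : List Bool) (t : ℕ) :
    wr (aP m n σ t) = {r | ∃ i < mm m n, ∃ j < n, r = [50, t, 0, i, j]} := by
  ext r
  unfold aP
  rw [mem_wr_range, Set.mem_setOf_eq]
  refine exists_congr fun c => and_congr_right fun _ => ?_
  rw [map_range_eq, mem_wr_range]
  refine exists_congr fun j => and_congr_right fun _ => ?_
  rw [mem_wr]
  simp only [List.mem_singleton, exists_eq_left]
  rw [aI_dst, eq_comm]

theorem ord_a (m n : ℕ) (σ : List Bool) (t : ℕ) : Ord (S2 m n t) (aP m n σ t) := by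
  refine ord_indep _ _ ?_ ?_
  · unfold aP
    exact nodup_fm (mm m n) n (fun c j => ([50, t, 0, c, j] : Reg))
      (fun i j i' j' h => by simpa using h)
      (fun I : Instr => I.dst) (fun c j => aI m n σ t c j) (fun c j => aI_dst m n σ t c j)
  · intro I hI
    unfold aP at hI
    simp only [List.mem_flatMap, List.mem_map, List.mem_range] at hI
    obtain ⟨c, hc, j, hj, rfl⟩ := hI
    have h1 : [64, t, psr n c, j, n + m] ∈ S2 m n t :=
      Or.inr ((wr_r m n t _).2 ⟨psr n c, psr_lt' hc, j, hj, Or.inl ⟨n + m, le_rfl, rfl⟩⟩)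
    refine ⟨?_, ?_, by
      rw [aI_dst]
      exact nS2 (by norm_num) (by norm_num) (by norm_num) (by norm_num) (by norm_num)
        (by norm_num)⟩
    · unfold aI
      split_ifs
      · exact base_S2 m n t hb3
      · exact h1
    · unfold aI
      split_ifs
      · exact h1
      · exact base_S2 m n t hb3

theorem wr_bI (m n t i : ℕ) (r : Reg) : r ∈ wr (bI m n t i) ↔
    r = [50, t, 1, i] ∨ (n + n ≤ i ∧ r = [65, t, i]) := by
  unfold bI
  split_ifs with h
  · rw [mem_wr]
    simp only [List.mem_singleton, exists_eq_left]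
    rw [eq_comm]
    constructor
    · intro h; exact Or.inl h
    · rintro (h' | ⟨h', _⟩)
      · exact h'
      · omega
  · rw [mem_wr]
    simp only [List.mem_cons, List.not_mem_nil, or_false, exists_eq_or_imp, exists_eq_left]
    constructor
    · rintro (h' | h')
      · exact Or.inr ⟨by omega, h'.symm⟩
      · exact Or.inl h'.symm
    · rintro (h' | ⟨_, h'⟩)
      · exact Or.inr h'.symm
      · exact Or.inl h'.symm

theorem ord_bI (m n t i : ℕ) : Ord (S2 m n t) (bI m n t i) := by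
  unfold bI
  split_ifs with h
  · rw [ord_cons]
    refine ⟨base_S2 m n t hb3, Or.inl (Or.inr ⟨_, le_rfl, rfl⟩), ?_, trivial⟩
    exact nS2 (by norm_num) (by norm_num) (by norm_num) (by norm_num) (by norm_num) (by norm_num)
  · rw [ord_cons, ord_cons]
    refine ⟨Or.inl (Or.inr ⟨_, by unfold mx; omega, rfl⟩), base_S2 m n t ?_, ?_, Or.inr rfl,
      Or.inl (Or.inl (Or.inr ⟨_, by unfold mx; omega, rfl⟩)), ?_, trivial⟩
    · unfold baseReg; simp
    · exact nS2 (by norm_num) (by norm_num) (by norm_num) (by norm_num) (by norm_num) (by norm_num)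
    · rintro (h' | h')
      · exact nS2 (by norm_num) (by norm_num) (by norm_num) (by norm_num) (by norm_num)
          (by norm_num) h'
      · simp at h'

theorem wr_b (m n t : ℕ) (r : Reg) : r ∈ wr (bP m n t) ↔
    ∃ i < mm m n, r = [50, t, 1, i] ∨ (n + n ≤ i ∧ r = [65, t, i]) := by
  unfold bP
  rw [mem_wr_range]
  refine exists_congr fun a => and_congr_right fun _ => ?_
  exact wr_bI m n t a r

theorem ord_b (m n t : ℕ) : Ord (S2 m n t) (bP m n t) := by
  unfold bP
  refine ord_range _ _ _ fun i hi => ?_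
  refine ord_ext _ _ _ (ord_bI m n t i) ?_ ?_
  · intro r hr
    exact Or.inl hr
  · intro r hr
    have h1 := (wr_bI m n t i r).1 hr
    rintro (h | h)
    · exact ord_not_mem _ _ (ord_bI m n t i) r hr h
    · obtain ⟨j', hj', h⟩ := h
      have h2 := (wr_bI m n t j' r).1 h
      rcases h1 with h1 | ⟨_, h1⟩ <;> rcases h2 with h2 | ⟨_, h2⟩ <;>
        rw [h1] at h2 <;> simp at h2 <;> omega

/-- The registers of the instance. -/
def S3 (m n : ℕ) (σ : List Bool) (t : ℕ) : Set Reg := S2 m n t ∪ wr (aP m n σ t) ∪ wr (bP m n t)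

theorem dst_minor {m n : ℕ} {h : List Outcome} {q : ℕ} (hm : 1 ≤ m) {I : Instr}
    (hI : I ∈ minorProg m n h q) : 4 ≤ I.dst.headD 0 := by
  have h1 := ord_not_mem _ _ (t_ORD m n h q hm) I.dst ⟨I, hI, rfl⟩
  unfold baseReg at h1
  simpa using h1

theorem pre_dst {m n : ℕ} {h : List Outcome} {q : ℕ} (hm : 1 ≤ m) {I : Instr}
    (hI : I ∈ minorProg m n h q) (t : ℕ) : pre t I.dst = 50 :: t :: I.dst := by
  have h1 := dst_minor hm hI
  unfold pre
  rw [if_neg]
  rintro (h2 | h2)
  · rw [h2] at h1; simp at h1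
  · rw [h2] at h1; simp at h1

theorem ord_min (m n : ℕ) (σ : List Bool) (R : Key) (t : ℕ) (hn : 1 ≤ n) :
    Ord (S3 m n σ t) (minP m n R t) := by
  have hmm : 1 ≤ mm m n := by unfold mm; omega
  unfold minP
  refine ord_ren t _ baseReg _ (t_ORD _ _ _ _ hmm) ?_ ?_
  · intro I hI r hr hrS
    rcases s_read _ _ _ _ I hI r hr with h | h | h | ⟨i, j, hi, hj, h⟩ | ⟨i, hi, h⟩
    · unfold baseReg at hrS
      simp only [Set.mem_setOf_eq] at hrS
      omega
    · rw [h]; exact Or.inl (Or.inl (base_S2 m n t hb2))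
    · rw [h]; exact Or.inl (Or.inl (base_S2 m n t hb3))
    · rw [h]
      left; right
      rw [wr_a]
      exact ⟨i, hi, j, hj, rfl⟩
    · rw [h]
      right
      rw [wr_b]
      exact ⟨i, hi, Or.inl rfl⟩
  · intro I hI
    rw [pre_dst hmm hI]
    have h4 := dst_minor hmm hI
    rintro ((h | h) | h)
    · exact nS2 (by norm_num) (by norm_num) (by norm_num) (by norm_num) (by norm_num)
          (by norm_num) h
    · rw [wr_a] at h
      obtain ⟨i, _, j, _, h⟩ := h
      simp only [List.cons.injEq, true_and] at h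
      rw [h] at h4
      simp at h4
    · rw [wr_b] at h
      obtain ⟨i, _, h | ⟨_, h⟩⟩ := h
      · simp only [List.cons.injEq, true_and] at h
        rw [h] at h4
        simp at h4
      · simp at h

theorem wr_min (m n : ℕ) (R : Key) (t : ℕ) (hn : 1 ≤ n) :
    (∀ r ∈ wr (minP m n R t), ∃ s, r = 50 :: t :: s) ∧ [50, t, 11] ∈ wr (minP m n R t) := by
  have hmm : 1 ≤ mm m n := by unfold mm; omega
  constructor
  · rintro r ⟨I, hI, rfl⟩
    unfold minP at hI
    obtain ⟨J, hJ, rfl⟩ := List.mem_map.1 hI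
    exact ⟨J.dst, pre_dst hmm hJ t⟩
  · refine ⟨ren t ⟨Op.sub, [11], [3], [10, mm m n - 1]⟩, ?_, rfl⟩
    unfold minP
    refine List.mem_map.2 ⟨_, ?_, rfl⟩
    unfold minorProg
    simp

theorem ord_t (m n : ℕ) (σ : List Bool) (R : Key) (t : ℕ) (hn : 1 ≤ n) (ht : t ≤ kk m n) :
    Ord (S0 m n) (tP m n σ R t) := by
  obtain ⟨h1, h2⟩ := ord_pow m n t ht
  unfold tP
  refine ord_append' h1 ?_
  rw [h2]
  refine ord_append' (ord_r m n t) ?_
  refine ord_append' (ord_a m n σ t) ?_
  refine ord_append' ?_ (ord_min m n σ R t hn)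
  refine ord_ext _ _ _ (ord_b m n t) (fun r hr => Or.inl hr) ?_
  intro r hr
  rintro (h | h)
  · exact ord_not_mem _ _ (ord_b m n t) r hr h
  · obtain ⟨i, _, h3⟩ := (wr_b m n t r).1 hr
    rw [wr_a] at h
    obtain ⟨i', _, j', _, h⟩ := h
    rcases h3 with h3 | ⟨_, h3⟩ <;> rw [h3] at h <;> simp at h

/-- The registers written have a number `t`. -/
theorem wr_t (m n : ℕ) (σ : List Bool) (R : Key) (t : ℕ) (hn : 1 ≤ n) (ht : t ≤ kk m n) :
    (∀ r ∈ wr (tP m n σ R t), ∃ h s, r = h :: t :: s ∧ 4 ≤ h ∧ h ≠ 60 ∧ h ≠ 62 ∧ h < 70) ∧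
      [50, t, 11] ∈ wr (tP m n σ R t) := by
  obtain ⟨h1, h2⟩ := ord_pow m n t ht
  unfold tP
  rw [wr_append, wr_append, wr_append, wr_append, h2, wr_a]
  constructor
  · rintro r (⟨s, _, h⟩ | h | ⟨i, _, j, _, h⟩ | h | h)
    · exact ⟨61, [s], h, by norm_num, by norm_num, by norm_num, by norm_num⟩
    · obtain ⟨a, _, j, _, ⟨c, _, h⟩ | ⟨c, _, h⟩⟩ := (wr_r m n t r).1 h
      · exact ⟨64, [a, j, c], h, by norm_num, by norm_num, by norm_num, by norm_num⟩
      · exact ⟨63, [a, j, c], h, by norm_num, by norm_num, by norm_num, by norm_num⟩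
    · exact ⟨50, [0, i, j], h, by norm_num, by norm_num, by norm_num, by norm_num⟩
    · obtain ⟨i, _, h | ⟨_, h⟩⟩ := (wr_b m n t r).1 h
      · exact ⟨50, [1, i], h, by norm_num, by norm_num, by norm_num, by norm_num⟩
      · exact ⟨65, [i], h, by norm_num, by norm_num, by norm_num, by norm_num⟩
    · obtain ⟨s, h⟩ := (wr_min m n R t hn).1 r h
      exact ⟨50, s, h, by norm_num, by norm_num, by norm_num, by norm_num⟩
  · exact Or.inr (Or.inr (Or.inr (Or.inr (wr_min m n R t hn).2)))

/-- The registers before the differences. -/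
def S4 (m n : ℕ) (σ : List Bool) (R : Key) : Set Reg :=
  S0 m n ∪ wr ((List.range (kk m n + 1)).flatMap (tP m n σ R))

theorem ord_ts (m n : ℕ) (σ : List Bool) (R : Key) (hn : 1 ≤ n) :
    Ord (S0 m n) ((List.range (kk m n + 1)).flatMap (tP m n σ R)) := by
  refine ord_range _ _ _ fun t ht => ?_
  refine ord_ext _ _ _ (ord_t m n σ R t hn (by omega)) (fun r hr => Or.inl hr) ?_
  intro r hr
  rintro (h | ⟨t', ht', h⟩)
  · exact ord_not_mem _ _ (ord_t m n σ R t hn (by omega)) r hr h
  · obtain ⟨h1, s1, e1, _⟩ := (wr_t m n σ R t hn (by omega)).1 r hr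
    obtain ⟨h2, s2, e2, _⟩ := (wr_t m n σ R t' hn (by omega)).1 r h
    rw [e1] at e2
    simp only [List.cons.injEq] at e2
    omega

theorem nS4 (m n : ℕ) (σ : List Bool) (R : Key) (hn : 1 ≤ n) (r : Reg) :
    (70 :: r : Reg) ∉ S4 m n σ R := by
  rintro (h | h)
  · exact nS0 (by norm_num) (by norm_num) (by norm_num) h
  · rw [mem_wr_range] at h
    obtain ⟨t, ht, h⟩ := h
    obtain ⟨h1, s1, e1, _, _, _, h2⟩ := (wr_t m n σ R t hn (by omega)).1 _ h
    simp only [List.cons.injEq] at e1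
    omega

/-- The first row of the differences. -/
def d0 (K : ℕ) : List Instr :=
  (List.range (K + 1)).map (fun t => (⟨Op.add, [70, 0, t], [50, t, 11], [3]⟩ : Instr))

/-- The row `j + 1` of the differences. -/
def d1 (K j : ℕ) : List Instr := (List.range K).flatMap fun t =>
      if j + t < K then [(⟨Op.sub, [70, j + 1, t], [70, j, t + 1], [70, j, t]⟩ : Instr)] else []

theorem wr_d0 (K : ℕ) : wr (d0 K) = {r | ∃ t ≤ K, r = [70, 0, t]} := by
  ext r
  unfold d0
  rw [map_range_eq, mem_wr_range, Set.mem_setOf_eq]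
  refine exists_congr fun t => and_congr (by omega) ?_
  rw [mem_wr]
  simp only [List.mem_singleton, exists_eq_left]
  rw [eq_comm]

theorem wr_d1 (K j : ℕ) : wr (d1 K j) = {r | ∃ t, j + t < K ∧ r = [70, j + 1, t]} := by
  ext r
  unfold d1
  rw [mem_wr_range, Set.mem_setOf_eq]
  constructor
  · rintro ⟨t, ht, h⟩
    split_ifs at h with h1
    · rw [mem_wr] at h
      simp only [List.mem_singleton, exists_eq_left] at h
      exact ⟨t, h1, h.symm⟩
    · obtain ⟨I, hI, _⟩ := h
      simp at hI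
  · rintro ⟨t, ht, h⟩
    refine ⟨t, by omega, ?_⟩
    rw [if_pos ht, mem_wr]
    simp only [List.mem_singleton, exists_eq_left]
    exact h.symm

theorem ord_dif (m n : ℕ) (σ : List Bool) (R : Key) (hn : 1 ≤ n) :
    Ord (S4 m n σ R) (difP (kk m n)) ∧ ∀ j ≤ kk m n, [70, j, 0] ∈ wr (difP (kk m n)) := by
  set K := kk m n with hK
  have e : difP K = d0 K ++ (List.range K).flatMap (d1 K) := rfl
  rw [e]
  constructor
  · refine ord_append' ?_ ?_
    · unfold d0
      rw [map_range_eq]
      refine ord_range _ _ _ fun t ht => ?_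
      rw [ord_cons]
      refine ⟨Or.inl (Or.inr ?_), Or.inl (Or.inl (base_S0 m n hb3)), ?_, trivial⟩
      · rw [mem_wr_range]
        exact ⟨t, ht, (wr_t m n σ R t hn (by omega)).2⟩
      · rintro (h | ⟨t', ht', h⟩)
        · exact nS4 m n σ R hn _ h
        · rw [mem_wr] at h
          simp only [List.mem_singleton, exists_eq_left] at h
          simp at h
          omega
    · rw [wr_d0]
      refine ord_range _ _ _ fun j hj => ?_
      have hw : {r | ∃ j' < j, r ∈ wr (d1 K j')} =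
          {r | ∃ j' < j, ∃ t, j' + t < K ∧ r = [70, j' + 1, t]} := by
        ext r
        simp only [Set.mem_setOf_eq, wr_d1]
      rw [hw]
      have hav : ∀ t, j + t ≤ K → [70, j, t] ∈ S4 m n σ R ∪ {r | ∃ t ≤ K, r = [70, 0, t]} ∪
          {r | ∃ j' < j, ∃ t, j' + t < K ∧ r = [70, j' + 1, t]} := by
        intro t ht
        cases j with
        | zero => exact Or.inl (Or.inr ⟨t, by omega, rfl⟩)
        | succ j => exact Or.inr ⟨j, by omega, t, by omega, rfl⟩
      have hnot : ∀ t, [70, j + 1, t] ∉ S4 m n σ R ∪ {r | ∃ t ≤ K, r = [70, 0, t]} ∪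
          {r | ∃ j' < j, ∃ t, j' + t < K ∧ r = [70, j' + 1, t]} := by
        rintro t ((h | ⟨t', _, h⟩) | ⟨j', hj', t', _, h⟩)
        · exact nS4 m n σ R hn _ h
        · simp at h
        · simp at h
          omega
      unfold d1
      refine ord_range _ _ _ fun t ht => ?_
      split_ifs with h1
      · rw [ord_cons]
        refine ⟨Or.inl (hav (t + 1) (by omega)), Or.inl (hav t (by omega)), ?_, trivial⟩
        rintro (h | ⟨t', ht', h⟩)
        · exact hnot t h
        · split_ifs at h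
          · rw [mem_wr] at h
            simp only [List.mem_singleton, exists_eq_left] at h
            simp at h
            omega
          · obtain ⟨I, hI, _⟩ := h
            simp at hI
      · trivial
  · intro j hj
    rw [wr_append]
    cases j with
    | zero =>
      left
      rw [wr_d0]
      exact ⟨0, by omega, rfl⟩
    | succ j =>
      right
      rw [mem_wr_range]
      refine ⟨j, by omega, ?_⟩
      rw [wr_d1]
      exact ⟨0, by omega, rfl⟩

theorem s_ordt : S_ORDT := by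
  intro m n σ R hn
  obtain ⟨h1, h2⟩ := ord_num (kk m n)
  obtain ⟨h3, h4⟩ := ord_dif m n σ R hn
  unfold prg
  constructor
  · refine ord_append' h1 ?_
    rw [h2]
    refine ord_append' ?_ ?_
    · refine ord_ext _ _ _ (ord_u m n σ) (fun r hr => Or.inl hr) ?_
      intro r hr
      rintro (h | ⟨s, _, h⟩)
      · exact ord_not_mem _ _ (ord_u m n σ) r hr h
      · rw [wr_u] at hr
        obtain ⟨c, _, j, _, hr⟩ := hr
        rw [hr] at h
        simp at h
    · rw [wr_u]
      exact ord_append' (ord_ts m n σ R hn) h3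
  · intro j hj
    rw [wr_append, wr_append, wr_append]
    exact Or.inr (Or.inr (Or.inr (h4 j hj)))

end Pool.Agent.L7h65.TN
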