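import Pool.Agent.L7h65.TN.Stm
import Pool.Agent.L7h61.CH.Ptime

set_option autoImplicit false

/-!
# Totally nonnegative matrices: the control is computed in polynomial time
-/

namespace Pool.Agent.L7h65.TN

open Pool.Agent.NPC Pool.Agent.H558R2 Pool.Agent.H622R3.SM Pool.Agent.W920.FC Pool.Agent.L7h61.CH

section

variable {α : Type} [TEnc α]

attribute [local fun_prop] TPM.pInstr Poly.range_length

theorem uMM {U V : α → List Unit} (hU : Poly U) (hV : Poly V) :
    UPoly (fun a => mm (U a).length (V a).length) :=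
  UPoly.add (UPoly.add (UPoly.length hV) (UPoly.length hV)) (UPoly.length hU)

theorem uNN {U V : α → List Unit} (hU : Poly U) (hV : Poly V) :
    UPoly (fun a => (V a).length + (U a).length) :=
  UPoly.add (UPoly.length hV) (UPoly.length hU)

theorem uEE {U V : α → List Unit} (hU : Poly U) (hV : Poly V) :
    UPoly (fun a => ee (U a).length (V a).length) := UPoly.mul (uNN hU hV) (uNN hU hV)

theorem uMX {U V : α → List Unit} (hU : Poly U) (hV : Poly V) :
    UPoly (fun a => mx (U a).length (V a).length) :=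
  UPoly.add (UPoly.mul (UPoly.const 2) (uEE hU hV)) (UPoly.const 1)

theorem uKK {U V : α → List Unit} (hU : Poly U) (hV : Poly V) :
    UPoly (fun a => kk (U a).length (V a).length) := UPoly.mul (uMM hU hV) (uMX hU hV)

theorem pNum {K : α → ℕ} (hK : UPoly K) : Poly (fun a => numP (K a)) := by
  unfold numP
  exact Pool.Agent.NPC.Poly.cons (Pool.Agent.NPC.Poly.const _)
    (Pool.Agent.NPC.Poly.map (F := fun _ t => (⟨Op.add, [60, t + 1], [60, t], [2]⟩ : Instr))
      hK.range (by fun_prop))

theorem pPow {p t : α → ℕ} (hp : UPoly p) (ht : Poly t) : Poly (fun a => powP (p a) (t a)) := by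
  unfold powP
  exact Pool.Agent.NPC.Poly.cons (by fun_prop)
    (Pool.Agent.NPC.Poly.map (F := fun a s => (⟨Op.mul, [61, t a, s + 1], [61, t a, s], [60, t a]⟩ : Instr))
      hp.range (by fun_prop))

theorem pUI {n c j : α → ℕ} {σ : α → List Bool} (hn : Poly n) (hc : Poly c) (hj : Poly j)
    (hσ : Poly σ) : Poly (fun a => uI (n a) (σ a) (c a) (j a)) := by
  unfold uI
  fun_prop

theorem pU {U V : α → List Unit} {σ : α → List Bool} (hU : Poly U) (hV : Poly V) (hσ : Poly σ) :
    Poly (fun a => uP (U a).length (V a).length (σ a)) := by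
  unfold uP
  refine Pool.Agent.NPC.Poly.flatMap (F := fun a c => (List.range (V a).length).map fun j =>
    uI (V a).length (σ a) c j) (uNN hU hV).range ?_
  refine Pool.Agent.NPC.Poly.map (F := fun (p : α × ℕ) j => uI (V p.1).length (σ p.1) p.2 j)
    (Poly.range_length (l := fun p : α × ℕ => V p.1) (by fun_prop)) ?_
  exact pUI (n := fun q : (α × ℕ) × ℕ => (V q.1.1).length) (c := fun q => q.1.2)
    (j := fun q => q.2) (σ := fun q => σ q.1.1) (by fun_prop) (by fun_prop) (by fun_prop)
    (by fun_prop)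

theorem pXp {m n x c : α → ℕ} (hm : Poly m) (hn : Poly n) (hx : Poly x) (hc : Poly c) :
    Poly (fun a => xp (m a) (n a) (x a) (c a)) := by
  unfold xp ee dst
  fun_prop

theorem pRI {m n t x j c : α → ℕ} (hm : Poly m) (hn : Poly n) (ht : Poly t) (hx : Poly x)
    (hj : Poly j) (hc : Poly c) : Poly (fun a =>
      [(⟨Op.mul, [63, t a, x a, j a, c a], [61, t a, xp (m a) (n a) (x a) (c a)], [62, c a, j a]⟩ : Instr),
        ⟨Op.add, [64, t a, x a, j a, c a + 1], [64, t a, x a, j a, c a], [63, t a, x a, j a, c a]⟩]) := by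
  have h := pXp hm hn hx hc
  obtain ⟨e, he⟩ : ∃ e : α → ℕ, e = fun a => xp (m a) (n a) (x a) (c a) := ⟨_, rfl⟩
  rw [← he] at h
  have e1 : ∀ a, xp (m a) (n a) (x a) (c a) = e a := fun a => by rw [he]
  simp only [e1]
  fun_prop

theorem pR {U V : α → List Unit} {t : α → ℕ} (hU : Poly U) (hV : Poly V) (ht : Poly t) :
    Poly (fun a => rP (U a).length (V a).length (t a)) := by
  unfold rP
  refine Pool.Agent.NPC.Poly.flatMap (F := fun b x => (List.range (V b).length).flatMap fun j =>
    (⟨Op.add, [64, t b, x, j, 0], [3], [3]⟩ : Instr) ::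
      (List.range ((V b).length + (U b).length)).flatMap fun c =>
        [(⟨Op.mul, [63, t b, x, j, c], [61, t b, xp (U b).length (V b).length x c], [62, c, j]⟩ : Instr),
          ⟨Op.add, [64, t b, x, j, c + 1], [64, t b, x, j, c], [63, t b, x, j, c]⟩])
    (uNN hU hV).range ?_
  refine Pool.Agent.NPC.Poly.flatMap (F := fun (p : α × ℕ) j =>
    (⟨Op.add, [64, t p.1, p.2, j, 0], [3], [3]⟩ : Instr) ::
      (List.range ((V p.1).length + (U p.1).length)).flatMap fun c =>
        [(⟨Op.mul, [63, t p.1, p.2, j, c], [61, t p.1, xp (U p.1).length (V p.1).length p.2 c], [62, c, j]⟩ : Instr),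
          ⟨Op.add, [64, t p.1, p.2, j, c + 1], [64, t p.1, p.2, j, c], [63, t p.1, p.2, j, c]⟩])
    (Poly.range_length (l := fun p : α × ℕ => V p.1) (by fun_prop)) ?_
  refine Pool.Agent.NPC.Poly.cons (by fun_prop) ?_
  refine Pool.Agent.NPC.Poly.flatMap (F := fun (q : (α × ℕ) × ℕ) c =>
        [(⟨Op.mul, [63, t q.1.1, q.1.2, q.2, c], [61, t q.1.1, xp (U q.1.1).length (V q.1.1).length q.1.2 c], [62, c, q.2]⟩ : Instr),
          ⟨Op.add, [64, t q.1.1, q.1.2, q.2, c + 1], [64, t q.1.1, q.1.2, q.2, c], [63, t q.1.1, q.1.2, q.2, c]⟩])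
    (uNN (U := fun q : (α × ℕ) × ℕ => U q.1.1) (V := fun q => V q.1.1) (by fun_prop)
      (by fun_prop)).range ?_
  exact pRI (m := fun z : ((α × ℕ) × ℕ) × ℕ => (U z.1.1.1).length) (n := fun z => (V z.1.1.1).length)
    (t := fun z => t z.1.1.1) (x := fun z => z.1.1.2) (j := fun z => z.1.2) (c := fun z => z.2)
    (by fun_prop) (by fun_prop) (by fun_prop) (by fun_prop) (by fun_prop) (by fun_prop)

theorem pNgr {n r : α → ℕ} {σ : α → List Bool} (hn : Poly n) (hr : Poly r) (hσ : Poly σ) :
    Poly (fun a => ngr (n a) (σ a) (r a)) := by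
  unfold ngr
  fun_prop

theorem pPsr {n r : α → ℕ} (hn : Poly n) (hr : Poly r) : Poly (fun a => psr (n a) (r a)) := by
  unfold psr
  fun_prop

theorem pAI {m n t r j : α → ℕ} {σ : α → List Bool} (hm : Poly m) (hn : Poly n) (hσ : Poly σ)
    (ht : Poly t) (hr : Poly r) (hj : Poly j) :
    Poly (fun a => aI (m a) (n a) (σ a) (t a) (r a) (j a)) := by
  have h1 := pNgr hn hr hσ
  have h2 := pPsr hn hr
  unfold aI
  obtain ⟨e, he⟩ : ∃ e : α → Bool, e = fun a => ngr (n a) (σ a) (r a) := ⟨_, rfl⟩
  rw [← he] at h1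
  obtain ⟨f, hf⟩ : ∃ f : α → ℕ, f = fun a => psr (n a) (r a) := ⟨_, rfl⟩
  rw [← hf] at h2
  have e1 : ∀ a, ngr (n a) (σ a) (r a) = e a := fun a => by rw [he]
  have e2 : ∀ a, psr (n a) (r a) = f a := fun a => by rw [hf]
  simp only [e1, e2]
  fun_prop

theorem pA {U V : α → List Unit} {σ : α → List Bool} {t : α → ℕ} (hU : Poly U) (hV : Poly V)
    (hσ : Poly σ) (ht : Poly t) : Poly (fun a => aP (U a).length (V a).length (σ a) (t a)) := by
  unfold aP
  refine Pool.Agent.NPC.Poly.flatMap (F := fun a r => (List.range (V a).length).map fun j =>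
    aI (U a).length (V a).length (σ a) (t a) r j) (uMM hU hV).range ?_
  refine Pool.Agent.NPC.Poly.map (F := fun (p : α × ℕ) j =>
    aI (U p.1).length (V p.1).length (σ p.1) (t p.1) p.2 j)
    (Poly.range_length (l := fun p : α × ℕ => V p.1) (by fun_prop)) ?_
  exact pAI (m := fun q : (α × ℕ) × ℕ => (U q.1.1).length) (n := fun q => (V q.1.1).length)
    (σ := fun q => σ q.1.1) (t := fun q => t q.1.1) (r := fun q => q.1.2)
    (j := fun q => q.2) (by fun_prop) (by fun_prop) (by fun_prop) (by fun_prop) (by fun_prop)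
    (by fun_prop)

theorem pBI {m n t r : α → ℕ} (hm : Poly m) (hn : Poly n) (ht : Poly t) (hr : Poly r) :
    Poly (fun a => bI (m a) (n a) (t a) (r a)) := by
  unfold bI mx ee
  fun_prop

theorem pB {U V : α → List Unit} {t : α → ℕ} (hU : Poly U) (hV : Poly V) (ht : Poly t) :
    Poly (fun a => bP (U a).length (V a).length (t a)) := by
  unfold bP
  refine Pool.Agent.NPC.Poly.flatMap (F := fun a r => bI (U a).length (V a).length (t a) r)
    (uMM hU hV).range ?_
  exact pBI (m := fun q : α × ℕ => (U q.1).length) (n := fun q => (V q.1).length)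
    (t := fun q => t q.1) (r := fun q => q.2) (by fun_prop) (by fun_prop) (by fun_prop)
    (by fun_prop)

theorem pPre {t : α → ℕ} {r : α → Reg} (ht : Poly t) (hr : Poly r) :
    Poly (fun a => pre (t a) (r a)) := by
  unfold pre
  fun_prop

theorem pRen {t : α → ℕ} {I : α → Instr} (ht : Poly t) (hI : Poly I) :
    Poly (fun a => ren (t a) (I a)) := by
  have hc : Poly (fun a => (I a).code) := hI
  have hs := Pool.Agent.NPC.Poly.snd hc
  have hs2 := Pool.Agent.NPC.Poly.snd hs
  have h1 : Poly (fun a => (I a).code.1) := Pool.Agent.NPC.Poly.fst hc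
  have h2 : Poly (fun a => pre (t a) (I a).code.2.1) := pPre ht (Pool.Agent.NPC.Poly.fst hs)
  have h3 : Poly (fun a => pre (t a) (I a).code.2.2.1) := pPre ht (Pool.Agent.NPC.Poly.fst hs2)
  have h4 : Poly (fun a => pre (t a) (I a).code.2.2.2) := pPre ht (Pool.Agent.NPC.Poly.snd hs2)
  exact Pool.Agent.NPC.Poly.of_toT (Pool.Agent.NPC.Poly.toT' (Pool.Agent.NPC.Poly.pair h1
    (Pool.Agent.NPC.Poly.pair h2 (Pool.Agent.NPC.Poly.pair h3 h4))))

theorem pMin {U V : α → List Unit} {R : α → Key} {t : α → ℕ} (hU : Poly U) (hV : Poly V)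
    (hR : Poly R) (ht : Poly t) : Poly (fun a => minP (U a).length (V a).length (R a) (t a)) := by
  unfold minP
  have hM : Poly (fun a => V a ++ V a ++ U a) := by fun_prop
  have h1 := TPM.pMinorProg hM hV (pEnc hM hV hR) (Pool.Agent.NPC.Poly.const 0)
  have h2 : Poly (fun a => minorProg (mm (U a).length (V a).length) (V a).length
      (enc (mm (U a).length (V a).length) (V a).length (R a)) 0) := by
    refine h1.congr fun a => ?_
    have e : (V a ++ V a ++ U a).length = mm (U a).length (V a).length := by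
      unfold mm
      simp only [List.length_append]
    rw [e]
  refine Pool.Agent.NPC.Poly.map (F := fun a I => ren (t a) I) h2 ?_
  exact pRen (t := fun p : α × Instr => t p.1) (I := fun p => p.2) (by fun_prop) (by fun_prop)

theorem pT {U V : α → List Unit} {σ : α → List Bool} {R : α → Key} {t : α → ℕ} (hU : Poly U)
    (hV : Poly V) (hσ : Poly σ) (hR : Poly R) (ht : Poly t) :
    Poly (fun a => tP (U a).length (V a).length (σ a) (R a) (t a)) := by
  unfold tP
  exact Poly.append (pPow (uMX hU hV) ht) (Poly.append (pR hU hV ht)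
    (Poly.append (pA hU hV hσ ht) (Poly.append (pB hU hV ht) (pMin hU hV hR ht))))

theorem pDif {K : α → ℕ} (hK : UPoly K) : Poly (fun a => difP (K a)) := by
  unfold difP
  have hK' : Poly K := hK.toPoly
  refine Poly.append ?_ ?_
  · exact Pool.Agent.NPC.Poly.map (F := fun _ t => (⟨Op.add, [70, 0, t], [50, t, 11], [3]⟩ : Instr))
      (UPoly.add hK (UPoly.const 1)).range (by fun_prop)
  · refine Pool.Agent.NPC.Poly.flatMap (F := fun a j => (List.range (K a)).flatMap fun t =>
      if j + t < K a then [(⟨Op.sub, [70, j + 1, t], [70, j, t + 1], [70, j, t]⟩ : Instr)] else [])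
      hK.range ?_
    refine Pool.Agent.NPC.Poly.flatMap (F := fun (p : α × ℕ) t =>
      if p.2 + t < K p.1 then [(⟨Op.sub, [70, p.2 + 1, t], [70, p.2, t + 1], [70, p.2, t]⟩ : Instr)]
        else []) (UPoly.comp (f := fun p : α × ℕ => p.1) hK (by fun_prop)).range ?_
    fun_prop

theorem pPrg {U V : α → List Unit} {σ : α → List Bool} {R : α → Key} (hU : Poly U)
    (hV : Poly V) (hσ : Poly σ) (hR : Poly R) :
    Poly (fun a => prg (U a).length (V a).length (σ a) (R a)) := by
  unfold prg
  refine Poly.append (pNum (uKK hU hV)) (Poly.append (pU hU hV hσ) (Poly.append ?_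
    (pDif (uKK hU hV))))
  refine Pool.Agent.NPC.Poly.flatMap (F := fun a t => tP (U a).length (V a).length (σ a) (R a) t)
    (UPoly.add (uKK hU hV) (UPoly.const 1)).range ?_
  exact pT (U := fun p : α × ℕ => U p.1) (V := fun p => V p.1) (σ := fun p => σ p.1)
    (R := fun p => R p.1) (t := fun p => p.2) (by fun_prop) (by fun_prop) (by fun_prop)
    (by fun_prop) (by fun_prop)

theorem pQd {U V : α → List Unit} {σ : α → List Bool} {R : α → Key} {j : α → ℕ} (hU : Poly U)
    (hV : Poly V) (hσ : Poly σ) (hR : Poly R) (hj : Poly j) :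
    Poly (fun a => qd (U a).length (V a).length (σ a) (R a) (j a)) := by
  unfold qd
  exact Pool.Agent.NPC.Poly.pair (pPrg hU hV hσ hR) (by fun_prop)

theorem pLead {l : α → List Outcome} (hl : Poly l) : Poly (fun a => lead (l a)) := by
  unfold lead
  fun_prop

/-! ### Adaptive computations -/

theorem ptAskT (hPT : S_PT) {U V : α → List Unit} {σ : α → List Bool} {ks : α → List Key}
    (hU : Poly U) (hV : Poly V) (hσ : Poly σ) (hk : Poly ks) :
    PT (fun a => askT (U a).length (V a).length (σ a) (ks a)) := by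
  obtain ⟨pt1, pt2, pt3⟩ := hPT
  have h1 : Poly (fun a => (ks a).flatMap fun R =>
      (List.range (kk (U a).length (V a).length + 1)).map fun j =>
        qd (U a).length (V a).length (σ a) R j) := by
    refine Pool.Agent.NPC.Poly.flatMap (F := fun a R =>
      (List.range (kk (U a).length (V a).length + 1)).map fun j =>
        qd (U a).length (V a).length (σ a) R j) hk ?_
    refine Pool.Agent.NPC.Poly.map (F := fun (p : α × Key) j =>
      qd (U p.1).length (V p.1).length (σ p.1) p.2 j)
      (UPoly.add (uKK (U := fun p : α × Key => U p.1) (V := fun p => V p.1) (by fun_prop)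
        (by fun_prop)) (UPoly.const 1)).range ?_
    exact pQd (U := fun q : (α × Key) × ℕ => U q.1.1) (V := fun q => V q.1.1)
      (σ := fun q => σ q.1.1) (R := fun q => q.1.2) (j := fun q => q.2) (by fun_prop)
      (by fun_prop) (by fun_prop) (by fun_prop) (by fun_prop)
  have h2 : Poly (fun p : α × List Outcome =>
      ((ks p.1).zipIdx.map fun x => (x.1, lead ((List.range
        (kk (U p.1).length (V p.1).length + 1)).map fun j =>
          p.2.getD (x.2 * (kk (U p.1).length (V p.1).length + 1) + j) none)) : Tab)) := by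
    refine Pool.Agent.NPC.Poly.map (F := fun (p : α × List Outcome) (x : Key × ℕ) =>
      (x.1, lead ((List.range (kk (U p.1).length (V p.1).length + 1)).map fun j =>
          p.2.getD (x.2 * (kk (U p.1).length (V p.1).length + 1) + j) none))) (by fun_prop) ?_
    refine Pool.Agent.NPC.Poly.pair (by fun_prop) ?_
    refine pLead ?_
    have hk1 : UPoly (fun q : (α × List Outcome) × (Key × ℕ) =>
        kk (U q.1.1).length (V q.1.1).length + 1) :=
      UPoly.add (uKK (U := fun q : (α × List Outcome) × (Key × ℕ) => U q.1.1)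
        (V := fun q => V q.1.1) (by fun_prop) (by fun_prop)) (UPoly.const 1)
    obtain ⟨e, he⟩ : ∃ e : (α × List Outcome) × (Key × ℕ) → ℕ, e = fun q =>
      kk (U q.1.1).length (V q.1.1).length + 1 := ⟨_, rfl⟩
    rw [← he] at hk1
    have e1 : ∀ q : (α × List Outcome) × (Key × ℕ),
        kk (U q.1.1).length (V q.1.1).length + 1 = e q := fun q => by rw [he]
    simp only [e1]
    have hk2 : Poly e := hk1.toPoly
    refine Pool.Agent.NPC.Poly.map (F := fun (q : (α × List Outcome) × (Key × ℕ)) j =>
      q.1.2.getD (q.2.2 * e q + j) none) hk1.range ?_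
    fun_prop
  exact pt2 α (List Outcome) Tab _ (fun a o => ret ((ks a).zipIdx.map fun x =>
    (x.1, lead ((List.range (kk (U a).length (V a).length + 1)).map fun j =>
      o.getD (x.2 * (kk (U a).length (V a).length + 1) + j) none))))
    (pt3 α _ h1) (pt1 (α × List Outcome) Tab _ h2)

theorem ptSgnT (hPT : S_PT) {U V : α → List Unit} (hU : Poly U) (hV : Poly V) :
    PT (fun a => sgnT (U a).length (V a).length) := by
  obtain ⟨pt1, pt2, pt3⟩ := hPT
  have h1 : Poly (fun a => (List.range (U a).length).flatMap fun i =>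
      (List.range (V a).length).map fun j => (([] : List Instr), ([0, i, j] : Reg))) := by
    fun_prop
  have h2 : Poly (fun p : α × List Outcome => (List.range (U p.1).length).map fun i =>
      (List.range (V p.1).length).any fun j =>
        decide (p.2.getD (i * (V p.1).length + j) none = some false)) := by
    fun_prop
  exact pt2 α (List Outcome) (List Bool) _ (fun a o => ret ((List.range (U a).length).map fun i =>
      (List.range (V a).length).any fun j =>
        decide (o.getD (i * (V a).length + j) none = some false)))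
    (pt3 α _ h1) (pt1 (α × List Outcome) (List Bool) _ h2)

theorem ptStpT (hPT : S_PT) {U V : α → List Unit} {σ : α → List Bool} {L L' : α → Tab}
    {s : α → St} (hU : Poly U) (hV : Poly V) (hσ : Poly σ) (hL : Poly L) (hL' : Poly L')
    (hs : Poly s) :
    PT (fun a => stpT (U a).length (V a).length (σ a) (L a) (L' a) (s a)) := by
  obtain ⟨pt1, pt2, pt3⟩ := id hPT
  have hM : Poly (fun a => V a ++ V a ++ U a) := by fun_prop
  have e : ∀ a, (V a ++ V a ++ U a).length = mm (U a).length (V a).length := by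
    intro a
    unfold mm
    simp only [List.length_append]
  have h2 : Poly (fun a => K2 (mm (U a).length (V a).length) (V a).length (s a).2.1) :=
    (pK2 (T := fun a => (s a).2.1) hM hV (by fun_prop)).congr fun a => by rw [e]
  refine pt2 α Tab St _ (fun a M => ret (upd (mm (U a).length (V a).length) (V a).length (L a)
    (L' a) M (s a))) (ptAskT hPT hU hV hσ h2) (pt1 (α × Tab) St _ ?_)
  refine (pUpd (U := fun p : α × Tab => V p.1 ++ V p.1 ++ U p.1) (V := fun p => V p.1)
    (L := fun p => L p.1) (L' := fun p => L' p.1) (M := fun p => p.2) (s := fun p => s p.1)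
    (by fun_prop) (by fun_prop) (by fun_prop) (by fun_prop) (by fun_prop) (by fun_prop)).congr
    fun p => by rw [e]

end

theorem shrAskT (hO : S_OUT) (m n : ℕ) (σ : List Bool) (ks : List Key) : Shr (askT m n σ ks) := by
  obtain ⟨-, -, -, shr1, shr2, shr3, shr4⟩ := hO
  unfold askT
  exact shr2 _ _ _ _ (shr3 _) fun o => shr1 _ _

theorem out_iterT (hO : S_OUT) (m n : ℕ) (σ : List Bool) (L L' : Tab) :
    ∀ (i : ℕ) (s : St), Out (iter (stpT m n σ L L') i s0) s → Bnd (mm m n) n s := by
  obtain ⟨o1, o2, o3, -⟩ := hO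
  intro i
  induction i with
  | zero =>
    intro s h
    have hs : s = s0 := o1 _ _ _ h
    rw [hs]
    exact ⟨by simp [s0], by simp [s0], by simp [s0], by simp [s0], by simp [s0]⟩
  | succ i ih =>
    intro s h
    obtain ⟨b, hb1, hb2⟩ := o3 _ _ _ _ _ h
    have i1 := ih b hb1
    unfold stpT at hb2
    obtain ⟨M, hM, h3⟩ := o2 _ _ _ _ _ hb2
    have h5 := o1 _ _ _ h3
    rw [h5]
    exact upd_bnd L L' M b i1

/-- The input of the iteration. -/
abbrev In4 : Type := (List Unit × List Unit) × (List Bool × (Tab × Tab))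

/-- Phase 3. -/
def run4 (a : In4) : TT Bool :=
  bnd (iter (stpT a.1.1.length a.1.2.length a.2.1 a.2.2.1 a.2.2.2)
      (itN (mm a.1.1.length a.1.2.length) a.1.2.length) s0) fun s =>
    ret (fin (mm a.1.1.length a.1.2.length) a.1.2.length a.2.2.1 s)

theorem pt_top (hO : S_OUT) (hPT : S_PT) (hIT : S_PTITER) : S_PTT := by
  obtain ⟨pt1, pt2, pt3⟩ := id hPT
  obtain ⟨-, -, -, shr1, shr2, shr3, shr4⟩ := id hO
  have hstp : PT (fun p : In4 × St =>
      stpT p.1.1.1.length p.1.1.2.length p.1.2.1 p.1.2.2.1 p.1.2.2.2 p.2) :=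
    ptStpT (U := fun p : In4 × St => p.1.1.1) (V := fun p => p.1.1.2) (σ := fun p => p.1.2.1)
      (L := fun p => p.1.2.2.1) (L' := fun p => p.1.2.2.2) (s := fun p => p.2) hPT (by fun_prop)
      (by fun_prop) (by fun_prop) (by fun_prop) (by fun_prop) (by fun_prop)
  have hun : UPoly (fun a : In4 => itN (mm a.1.1.length a.1.2.length) a.1.2.length) := by
    have hU : UPoly (fun a : In4 => mm a.1.1.length a.1.2.length) :=
      uMM (U := fun a : In4 => a.1.1) (V := fun a => a.1.2) (by fun_prop) (by fun_prop)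
    have hV : UPoly (fun a : In4 => a.1.2.length) := UPoly.length (by fun_prop)
    exact UPoly.add (UPoly.add (UPoly.mul hU hV) (UPoly.add hU hU)) (UPoly.const 2)
  have hiter : PT (fun a : In4 => iter (stpT a.1.1.length a.1.2.length a.2.1 a.2.2.1 a.2.2.2)
      (itN (mm a.1.1.length a.1.2.length) a.1.2.length) s0) := by
    refine hIT In4 St (fun a s => stpT a.1.1.length a.1.2.length a.2.1 a.2.2.1 a.2.2.2 s)
      (fun a => itN (mm a.1.1.length a.1.2.length) a.1.2.length) (fun _ => s0) hstp hun
      (Pool.Agent.NPC.Poly.const _) ?_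
      ⟨(4 * (3 * Polynomial.X) + 1) + (Polynomial.X * (4 * (3 * Polynomial.X) + 2) + 1) +
        (4 * (3 * Polynomial.X) + 3) + 6, ?_⟩
    · intro a s
      exact shr2 _ _ _ _ (shrAskT hO _ _ _ _) fun b => shr1 _ _
    · intro a i s hi hout
      have h1 := out_iterT hO _ _ _ _ _ i s hout
      have h2 := sz_of_bnd s h1
      have e1 := length_lt_sz a.1.1
      have e2 := length_lt_sz a.1.2
      have e3 : sz a = (sz a.1.1 + sz a.1.2 + 1) + (sz a.2.1 + (sz a.2.2.1 + sz a.2.2.2 + 1) + 1) + 1 := by
        obtain ⟨⟨a1, a2⟩, a3, a4, a5⟩ := a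
        simp
      have e4 : mm a.1.1.length a.1.2.length ≤ 3 * sz a := by
        unfold mm
        omega
      have e5 : a.1.2.length ≤ sz a := by omega
      refine h2.trans ?_
      simp only [Polynomial.eval_add, Polynomial.eval_mul, Polynomial.eval_ofNat,
        Polynomial.eval_X, Polynomial.eval_one]
      gcongr
  have hMM : ∀ p : List Unit × List Unit,
      (p.2 ++ p.2 ++ p.1).length = mm p.1.length p.2.length := by
    intro p
    unfold mm
    simp only [List.length_append]
  have h3 : PT run4 :=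
    pt2 In4 St Bool _ (fun a s => ret (fin (mm a.1.1.length a.1.2.length) a.1.2.length a.2.2.1 s))
      hiter (pt1 (In4 × St) Bool _ ((pFin (U := fun p : In4 × St => p.1.1.2 ++ p.1.1.2 ++ p.1.1.1)
        (V := fun p => p.1.1.2) (L := fun p => p.1.2.2.1) (s := fun p => p.2) (by fun_prop)
        (by fun_prop) (by fun_prop) (by fun_prop)).congr fun p => by rw [hMM]))
  have h4 : PT (fun p : (((List Unit × List Unit) × List Bool) × Tab) × Tab =>
      run4 (p.1.1.1, (p.1.1.2, (p.1.2, p.2)))) :=
    ptComp h3 (f := fun p : (((List Unit × List Unit) × List Bool) × Tab) × Tab =>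
      (p.1.1.1, (p.1.1.2, (p.1.2, p.2)))) (by fun_prop)
  have hK1 : Poly (fun p : ((List Unit × List Unit) × List Bool) × Tab =>
      K1 (mm p.1.1.1.length p.1.1.2.length) p.1.1.2.length p.2) :=
    (pK1 (U := fun p : ((List Unit × List Unit) × List Bool) × Tab =>
      p.1.1.2 ++ p.1.1.2 ++ p.1.1.1) (V := fun p => p.1.1.2) (L := fun p => p.2) (by fun_prop)
      (by fun_prop) (by fun_prop)).congr fun p => by rw [hMM]
  have h5 : PT (fun p : ((List Unit × List Unit) × List Bool) × Tab =>
      bnd (askT p.1.1.1.length p.1.1.2.length p.1.2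
        (K1 (mm p.1.1.1.length p.1.1.2.length) p.1.1.2.length p.2)) fun L' =>
        run4 (p.1.1, (p.1.2, (p.2, L')))) :=
    pt2 (((List Unit × List Unit) × List Bool) × Tab) Tab Bool _
      (fun p L' => run4 (p.1.1, (p.1.2, (p.2, L'))))
      (ptAskT (U := fun p : ((List Unit × List Unit) × List Bool) × Tab => p.1.1.1)
        (V := fun p => p.1.1.2) (σ := fun p => p.1.2) hPT (by fun_prop) (by fun_prop)
        (by fun_prop) hK1) h4
  have hK0 : Poly (fun p : (List Unit × List Unit) × List Bool =>
      K0 (mm p.1.1.length p.1.2.length) p.1.2.length) :=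
    (pK0 (U := fun p : (List Unit × List Unit) × List Bool => p.1.2 ++ p.1.2 ++ p.1.1)
      (V := fun p => p.1.2) (by fun_prop) (by fun_prop)).congr fun p => by rw [hMM]
  have h6 : PT (fun p : (List Unit × List Unit) × List Bool => mainT p.1.1.length p.1.2.length p.2) :=
    pt2 ((List Unit × List Unit) × List Bool) Tab Bool _
      (fun p L => bnd (askT p.1.1.length p.1.2.length p.2
        (K1 (mm p.1.1.length p.1.2.length) p.1.2.length L)) fun L' => run4 (p.1, (p.2, (L, L'))))
      (ptAskT (U := fun p : (List Unit × List Unit) × List Bool => p.1.1)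
        (V := fun p => p.1.2) (σ := fun p => p.2) hPT (by fun_prop) (by fun_prop)
        (by fun_prop) hK0) h5
  exact pt2 (List Unit × List Unit) (List Bool) Bool _ (fun p σ => mainT p.1.length p.2.length σ)
    (ptSgnT (U := fun p : List Unit × List Unit => p.1) (V := fun p => p.2) hPT (by fun_prop)
      (by fun_prop)) h6

theorem s_ptt : S_PTT := pt_top Pool.Agent.W920.FC.t_OUT.1 Pool.Agent.W920.FC.t_PT
  Pool.Agent.W920.FC.t_PTITER

end Pool.Agent.L7h65.TN
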