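import Pool.Agent.L7h65.TN.CoreT
import Pool.Agent.L7h65.TN.Cheb
import Pool.Agent.L7h65.TN.Dif
import Pool.Agent.L7h65.TN.Deg
import Pool.Agent.L7h65.TN.Ordt
import Pool.Agent.L7h65.TN.Ptt
import Pool.Agent.L7h47.TN.Pos
import Pool.Agent.L7h47.TN.Smt
import Pool.Agent.L7h97.TN.Lim
import Pool.Agent.L7h97.TN.Len
import Pool.Agent.L7h61.CH.Final

set_option autoImplicit false

/-!
# Linear feasibility for totally nonnegative matrices: the main theorem
-/

namespace Pool.Agent.L7h65.TN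

open Pool.Agent.NPC Pool.Agent.H558R2 Pool.Agent.H622R3.SM Pool.Agent.W920.FC Pool.Agent.L7h61.CH
open Polynomial

/-- The bound for the degrees. -/
noncomputable def kkP : ℕ[X] := (2 * X) * (2 * (X * X) + 1)

/-- The bound for the number of minors. -/
noncomputable def nqP : ℕ[X] := (2 * X) * (X * ((2 * X) * (X + 1) + 1)) + (2 * X) * 2 +
  ((2 * X) * X + (2 * X + 2 * X) + 2) * ((2 * X) * (2 * X + 1))

/-- The bound for the cost. -/
noncomputable def costQ (pl : ℕ[X]) : ℕ[X] := X * X + nqP * (kkP + 1) * (pl + 1)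

theorem cost_leT (pl : ℕ[X]) (m n : ℕ) :
    m * n + cst m n pl (nq m n) ≤ (costQ pl).eval (m + n) := by
  have h1 : m ≤ m + n := Nat.le_add_right _ _
  have h2 : n ≤ m + n := Nat.le_add_left _ _
  have h3 : mm m n ≤ 2 * (m + n) := by unfold mm; omega
  have h4 : ee m n = (m + n) * (m + n) := by unfold ee; ring
  have h5 : kk m n ≤ kkP.eval (m + n) := by
    unfold kk mx kkP
    rw [h4]
    simp only [eval_add, eval_mul, eval_X, eval_one, eval_ofNat]
    gcongr
  have h6 : nq m n ≤ nqP.eval (m + n) := by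
    unfold nq itN nqP
    simp only [eval_add, eval_mul, eval_X, eval_one, eval_ofNat]
    gcongr
  unfold cst costQ
  simp only [eval_add, eval_mul, eval_X, eval_one]
  gcongr

/-- **The main theorem.** -/
theorem main : PolyControl alg ∧ OracleFree alg ∧ DecidesOn (fun m n A _ => Cls m n A) alg := by
  obtain ⟨hOUT, hCTRL⟩ := Pool.Agent.W920.FC.t_OUT
  obtain ⟨p, hp⟩ := Pool.Agent.L7h47.TN.smt
  obtain ⟨pl, hpl⟩ := Pool.Agent.L7h97.TN.s_LENT
  refine ⟨hCTRL topT s_ptt, ?_, ?_⟩
  · intro m n h w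
    unfold alg Pool.Agent.W920.FC.algOf
    cases topT m n h <;> simp
  · refine ⟨costQ pl + 1 + p, ?_⟩
    intro m n hm hn A b hC
    have hr := topT_run s_ordt Pool.Agent.L7h47.TN.eqt hp hpl hm hn A b
    have hcore := res_iff Pool.Agent.L7h47.TN.jw Pool.Agent.L7h47.TN.gk Pool.Agent.L7h47.TN.pos
      s_cheb Pool.Agent.L7h97.TN.s_LIM s_deg s_dif hn A b hC
    have hfuel : m * n + cst m n pl (nq m n) + 1 ≤ (costQ pl + 1 + p).eval (m + n) := by
      have := cost_leT pl m n
      simp only [Polynomial.eval_add, Polynomial.eval_one]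
      omega
    obtain ⟨nums, steps, hrun, hsteps, hG⟩ :=
      Pool.Agent.W920.FC.t_RUN topT m n _ _ _ _ hr ∅ _ hfuel
    refine ⟨_, nums, steps, hrun, ?_, by omega, ?_⟩
    · rw [hcore]
      rfl
    · intro A' b' hA' hb' v hv
      obtain ⟨q, hq1, hq2⟩ := hG v hv A' b' hA' hb'
      refine ⟨q, hq1, hq2.trans ?_⟩
      simp only [Polynomial.eval_add, Polynomial.eval_one]
      omega

end Pool.Agent.L7h65.TN
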