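import Pool.Agent.L7h65.TN.Stm
import Pool.Agent.H622R3.SM.T_ORD

set_option autoImplicit false

/-!
# The registers read by the program of a minor
-/

namespace Pool.Agent.L7h65.TN

open Pool.Agent.NPC Pool.Agent.H558R2 Pool.Agent.H622R3.SM Pool.Agent.W920.FC Pool.Agent.L7h61.CH

theorem s_read : S_READ := by
  intro m n h q I hI r hr
  unfold minorProg at hI
  rcases List.mem_append.1 hI with hI | hI
  · obtain ⟨i, j, hi, hj, rfl⟩ := TORD.mem_entry hI
    unfold entryInstr at hr
    split_ifs at hr with h1 h2 h3 h4
    · rcases hr with rfl | rfl <;> simp
    · rcases hr with rfl | rfl <;> simp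
    · rcases hr with rfl | rfl
      · right; right; right; left
        exact ⟨i, colOf m n h q j - m, hi, by omega, rfl⟩
      · simp
    · rcases hr with rfl | rfl
      · simp
      · right; right; right; left
        exact ⟨i, colOf m n h q j - m - n, hi, by omega, rfl⟩
    · rcases hr with rfl | rfl
      · right; right; right; right
        exact ⟨i, hi, rfl⟩
      · simp
  rcases List.mem_append.1 hI with hI | hI
  · rcases TORD.mem_init hI with rfl | ⟨i, j, hi, hj, rfl⟩
    · rcases hr with rfl | rfl <;> simp
    · rcases hr with rfl | rfl
      · dsimp only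
        split_ifs <;> simp
      · simp
  rcases List.mem_append.1 hI with hI | hI
  · obtain ⟨k, hk, hI⟩ := List.mem_flatMap.1 hI
    rcases List.mem_append.1 hI with hI | hI
    · simp only [prodProg, List.mem_flatMap, List.mem_cons, List.mem_range, List.not_mem_nil,
        or_false] at hI
      obtain ⟨i, hi, j, hj, rfl | ⟨l, hl, rfl | rfl⟩⟩ := hI
      · rcases hr with rfl | rfl <;> simp
      · rcases hr with rfl | rfl <;> simp
      · rcases hr with rfl | rfl <;> simp
    rcases List.mem_append.1 hI with hI | hI
    · simp only [traceProg, List.mem_cons, List.mem_append, List.mem_map, List.mem_range,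
        List.not_mem_nil, or_false, List.cons_append] at hI
      rcases hI with rfl | ⟨i, hi, rfl⟩ | rfl | rfl
      · rcases hr with rfl | rfl <;> simp
      · rcases hr with rfl | rfl <;> simp
      · rcases hr with rfl | rfl <;> simp
      · rcases hr with rfl | rfl <;> simp
    · simp only [nextProg, List.mem_flatMap, List.mem_map, List.mem_range] at hI
      obtain ⟨i, hi, j, hj, rfl⟩ := hI
      rcases hr with rfl | rfl
      · simp
      · dsimp only
        split_ifs <;> simp
  · rw [List.mem_singleton] at hI
    subst hI
    rcases hr with rfl | rfl <;> simp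

end Pool.Agent.L7h65.TN
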