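import Pool.Agent.L7h65.TN.Stm
import Pool.Agent.W920.FC.T_TT
import Pool.Agent.W920.FC.T_RUN

set_option autoImplicit false

/-!
# Linear feasibility for totally nonnegative matrices: the run of the algorithm
-/

namespace Pool.Agent.L7h65.TN

open Pool.Agent.NPC Pool.Agent.H558R2 Pool.Agent.H622R3.SM Pool.Agent.W920.FC Pool.Agent.L7h61.CH

/-! ### Lists -/

theorem length_fm {α β : Type} (l : List α) (a : ℕ) (f : α → ℕ → β) :
    (l.flatMap fun x => (List.range a).map (f x)).length = l.length * a := by
  rw [List.length_flatMap]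
  simp

theorem getD_fm {α β : Type} (a : ℕ) (f : α → ℕ → β) (d : β) (j : ℕ) (hj : j < a) :
    ∀ (l : List α) (i : ℕ) (hi : i < l.length),
      (l.flatMap fun x => (List.range a).map (f x)).getD (i * a + j) d = f l[i] j := by
  intro l
  induction l with
  | nil => intro i hi; simp at hi
  | cons x l ih =>
    intro i hi
    rw [List.flatMap_cons]
    cases i with
    | zero =>
      rw [List.getD_append _ _ _ _ (by simp; omega)]
      simp [List.getD_eq_getElem?_getD, hj]
    | succ i =>
      have hi' : i < l.length := by simpa using hi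
      rw [List.getD_append_right _ _ _ _ (by
        simp only [List.length_map, List.length_range]
        calc a = 1 * a := (one_mul a).symm
          _ ≤ (i + 1) * a := Nat.mul_le_mul_right _ (by omega)
          _ ≤ (i + 1) * a + j := Nat.le_add_right _ _)]
      have e : (i + 1) * a + j - ((List.range a).map (f x)).length = i * a + j := by
        simp only [List.length_map, List.length_range]
        have : (i + 1) * a = i * a + a := by ring
        omega
      rw [e, ih i hi']
      simp

variable {m n : ℕ}

/-! ### Queries -/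

theorem hasValT (hORD : S_ORDT) (hEQ : S_EQT) {p : Polynomial ℕ}
    (hSM : ∀ (m n : ℕ) (σ : List Bool) (A : Fin m → Fin n → ℝ) (b : Fin m → ℝ) (R : Key),
      1 ≤ m → 1 ≤ n → ∀ I ∈ prg m n σ R, Smt p A b (vv σ A b R I.dst))
    (hm : 1 ≤ m) (hn : 1 ≤ n) (σ : List Bool) (A : Fin m → Fin n → ℝ) (b : Fin m → ℝ) (R : Key)
    (j : ℕ) (hj : j ≤ kk m n) :
    HasVal (start A b) (Smt p A b) (qd m n σ R j) (df σ A b R j 0) := by
  obtain ⟨h1, h2⟩ := hORD m n σ R hn
  obtain ⟨h3, h4⟩ := hEQ m n σ A b R hn
  refine ⟨h1, vv σ A b R, h3, fun I hI => ⟨(h4 I hI).1, (h4 I hI).2, hSM m n σ A b R hm hn I hI⟩,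
    Or.inr (h2 j hj), rfl⟩

theorem sum_qry_le (c : ℕ) (qs : List Qry) (h : ∀ q ∈ qs, q.1.length ≤ c) :
    (qs.map fun q => q.1.length + 1).sum ≤ qs.length * (c + 1) := by
  induction qs with
  | nil => simp
  | cons q qs ih =>
    simp only [List.map_cons, List.sum_cons, List.length_cons]
    have h1 := h q List.mem_cons_self
    have h2 := ih fun q hq => h q (List.mem_cons_of_mem _ hq)
    have h3 : (qs.length + 1) * (c + 1) = qs.length * (c + 1) + (c + 1) := by ring
    omega

/-- The cost of a batch of queries. -/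
def cst (m n : ℕ) (pl : Polynomial ℕ) (k : ℕ) : ℕ := k * (kk m n + 1) * (pl.eval (m + n) + 1)

theorem forall2_fm {α β γ : Type} (P : β → γ → Prop) (l : List α) (a : ℕ) (f : α → ℕ → β)
    (g : α → ℕ → γ) (h : ∀ x ∈ l, ∀ j < a, P (f x j) (g x j)) :
    List.Forall₂ P (l.flatMap fun x => (List.range a).map (f x))
      (l.flatMap fun x => (List.range a).map (g x)) := by
  have key : ∀ (l : List α), (∀ x ∈ l, ∀ j < a, P (f x j) (g x j)) →
      List.Forall₂ P (l.flatMap fun x => (List.range a).map (f x))
        (l.flatMap fun x => (List.range a).map (g x)) := by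
    intro l
    induction l with
    | nil => intro _; exact List.Forall₂.nil
    | cons x l ih =>
      intro h
      rw [List.flatMap_cons, List.flatMap_cons]
      refine List.rel_append ?_ (ih fun y hy => h y (List.mem_cons_of_mem _ hy))
      rw [List.forall₂_map_left_iff, List.forall₂_map_right_iff, List.forall₂_same]
      intro j hj
      exact h x List.mem_cons_self j (List.mem_range.1 hj)
  exact key l h

theorem askT_run (hORD : S_ORDT) (hEQ : S_EQT) {p pl : Polynomial ℕ}
    (hSM : ∀ (m n : ℕ) (σ : List Bool) (A : Fin m → Fin n → ℝ) (b : Fin m → ℝ) (R : Key),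
      1 ≤ m → 1 ≤ n → ∀ I ∈ prg m n σ R, Smt p A b (vv σ A b R I.dst))
    (hLEN : ∀ (m n : ℕ) (σ : List Bool) (R : Key), 1 ≤ n →
      (prg m n σ R).length ≤ pl.eval (m + n))
    (hm : 1 ≤ m) (hn : 1 ≤ n) (σ : List Bool) (A : Fin m → Fin n → ℝ) (b : Fin m → ℝ)
    (ks : List Key) :
    Runs (start A b) (Smt p A b) (askT m n σ ks) (tl σ A b ks) (cst m n pl ks.length) := by
  obtain ⟨hBND, hBATCH, hITER, hMONO⟩ := Pool.Agent.W920.FC.t_TT
  have h1 : List.Forall₂ (HasVal (start A b) (Smt p A b))
      (ks.flatMap fun R => (List.range (kk m n + 1)).map fun j => qd m n σ R j)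
      (ks.flatMap fun R => (List.range (kk m n + 1)).map fun j => df σ A b R j 0) := by
    refine forall2_fm _ ks _ (fun R j => qd m n σ R j) (fun R j => df σ A b R j 0) ?_
    intro R _ j hj
    exact hasValT hORD hEQ hSM hm hn σ A b R j (by omega)
  have h2 := hBATCH _ _ _ _ h1
  have h3 : ((ks.flatMap fun R => (List.range (kk m n + 1)).map fun j => qd m n σ R j).map
      fun q => q.1.length + 1).sum ≤ cst m n pl ks.length := by
    refine (sum_qry_le (pl.eval (m + n)) _ ?_).trans ?_
    · intro q hq
      obtain ⟨R, _, hq⟩ := List.mem_flatMap.1 hq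
      obtain ⟨j, _, rfl⟩ := List.mem_map.1 hq
      exact hLEN m n σ R hn
    · rw [length_fm]
      exact le_rfl
  have e : ∀ o : List Outcome, o = ((ks.flatMap fun R => (List.range (kk m n + 1)).map fun j =>
      df σ A b R j 0).map signOut) →
      (ks.zipIdx.map fun p => (p.1, lead ((List.range (kk m n + 1)).map fun j =>
        o.getD (p.2 * (kk m n + 1) + j) none))) = tl σ A b ks := by
    intro o ho
    unfold tl
    apply List.ext_getElem
    · simp
    · intro i h5 h6
      have hi : i < ks.length := by simpa using h6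
      simp only [List.getElem_map, List.getElem_zipIdx, zero_add]
      congr 2
      refine List.map_congr_left fun j hj => ?_
      rw [ho, List.map_flatMap]
      have h7 := getD_fm (kk m n + 1) (fun (R : Key) j => signOut (df σ A b R j 0)) none j
        (List.mem_range.1 hj) ks i hi
      rw [← h7]
      congr 1
      refine List.flatMap_congr fun R _ => ?_
      rw [List.map_map]
      rfl
  have h4 := hBND _ Tab (start A b) (Smt p A b) _
    (fun o => ret (ks.zipIdx.map fun p => (p.1, lead ((List.range (kk m n + 1)).map fun j =>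
      o.getD (p.2 * (kk m n + 1) + j) none)))) _ (tl σ A b ks) _ 0 h2 (by
      rw [e _ rfl]
      exact Runs.done _ _ 0 fun _ => rfl)
  exact hMONO _ _ _ _ _ _ _ _ (fun v hv => hv) (by omega) h4

/-- The signs of the rows. -/
noncomputable def sgs {m n : ℕ} (A : Fin m → Fin n → ℝ) : List Bool :=
  (List.range m).map fun i => (List.range n).any fun j =>
    decide (signOut (start A (fun _ => 0) [0, i, j]) = some false)

theorem sgnT_run (p : Polynomial ℕ) (A : Fin m → Fin n → ℝ) (b : Fin m → ℝ) :
    Runs (start A b) (Smt p A b) (sgnT m n) (sgs A) (m * n) := by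
  obtain ⟨hBND, hBATCH, hITER, hMONO⟩ := Pool.Agent.W920.FC.t_TT
  have h1 : List.Forall₂ (HasVal (start A b) (Smt p A b))
      ((List.range m).flatMap fun i => (List.range n).map fun j =>
        (([] : List Instr), ([0, i, j] : Reg)))
      ((List.range m).flatMap fun i => (List.range n).map fun j => start A b [0, i, j]) := by
    refine forall2_fm _ (List.range m) n (fun i j => (([] : List Instr), ([0, i, j] : Reg)))
      (fun i j => start A b [0, i, j]) ?_
    intro i _ j _
    exact ⟨trivial, start A b, fun _ _ => rfl, fun I hI => by simp at hI,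
      Or.inl (by show (0 : ℕ) < 4; norm_num), rfl⟩
  have h2 := hBATCH _ _ _ _ h1
  have h3 : (((List.range m).flatMap fun i => (List.range n).map fun j =>
        (([] : List Instr), ([0, i, j] : Reg))).map fun q => q.1.length + 1).sum ≤ m * n := by
    refine (sum_qry_le 0 _ ?_).trans ?_
    · intro q hq
      obtain ⟨i, _, hq⟩ := List.mem_flatMap.1 hq
      obtain ⟨j, _, rfl⟩ := List.mem_map.1 hq
      simp
    · rw [length_fm (List.range m) n (fun i j => (([] : List Instr), ([0, i, j] : Reg)))]
      simp
  have e : ∀ o : List Outcome, o = (((List.range m).flatMap fun i => (List.range n).map fun j =>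
      start A b [0, i, j]).map signOut) →
      ((List.range m).map fun i => (List.range n).any fun j =>
        decide (o.getD (i * n + j) none = some false)) = sgs A := by
    intro o ho
    unfold sgs
    refine List.map_congr_left fun i hi => ?_
    apply Bool.eq_iff_iff.2
    rw [List.any_eq_true, List.any_eq_true]
    refine exists_congr fun j => and_congr_right fun hj => ?_
    rw [ho, List.map_flatMap]
    have h7 := getD_fm n (fun i j => signOut (start A b [0, i, j])) none j
        (List.mem_range.1 hj) (List.range m) i (by simpa using hi)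
    rw [List.getElem_range] at h7
    have h8 : ((List.range m).flatMap fun a => ((List.range n).map fun j =>
        start A b [0, a, j]).map signOut) = (List.range m).flatMap fun i => (List.range n).map
          fun j => signOut (start A b [0, i, j]) := by
      refine List.flatMap_congr fun i _ => ?_
      rw [List.map_map]
      rfl
    rw [h8, h7]
    rfl
  have h4 := hBND _ (List Bool) (start A b) (Smt p A b) _
    (fun o : List Outcome => ret ((List.range m).map fun i => (List.range n).any fun j =>
      decide (o.getD (i * n + j) none = some false))) _ (sgs A) _ 0 h2 (by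
      rw [e _ rfl]
      exact Runs.done _ _ 0 fun _ => rfl)
  exact hMONO _ _ _ _ _ _ _ _ (fun v hv => hv) (by omega) h4

/-- The states. -/
noncomputable def stl (σ : List Bool) (A : Fin m → Fin n → ℝ) (b : Fin m → ℝ) (L L' : Tab) : ℕ → St
  | 0 => s0
  | i + 1 => upd (mm m n) n L L' (tl σ A b (K2 (mm m n) n (stl σ A b L L' i).2.1))
      (stl σ A b L L' i)

/-- The number of queried minors. -/
def nq (m n : ℕ) : ℕ := mm m n * (n * (mm m n * (n + 1) + 1)) + mm m n * 2 +
  itN (mm m n) n * (mm m n * (mm m n + 1))

/-- The result. -/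
noncomputable def res (σ : List Bool) (A : Fin m → Fin n → ℝ) (b : Fin m → ℝ) : Bool :=
  fin (mm m n) n (tl σ A b (K0 (mm m n) n)) (stl σ A b (tl σ A b (K0 (mm m n) n))
    (tl σ A b (K1 (mm m n) n (tl σ A b (K0 (mm m n) n)))) (itN (mm m n) n))

theorem length_K0' (m n : ℕ) : (K0 m n).length = m * (n * (m * (n + 1) + 1)) := by
  unfold K0
  simp [List.length_flatMap]

theorem length_K1' (m n : ℕ) (L : Tab) : (K1 m n L).length = m * 2 := by
  unfold K1
  simp [List.length_flatMap]

theorem length_K2' (m n : ℕ) (T : List ℕ) : (K2 m n T).length = m * (m + 1) := by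
  unfold K2
  simp [List.length_flatMap]

theorem topT_run (hORD : S_ORDT) (hEQ : S_EQT) {p pl : Polynomial ℕ}
    (hSM : ∀ (m n : ℕ) (σ : List Bool) (A : Fin m → Fin n → ℝ) (b : Fin m → ℝ) (R : Key),
      1 ≤ m → 1 ≤ n → ∀ I ∈ prg m n σ R, Smt p A b (vv σ A b R I.dst))
    (hLEN : ∀ (m n : ℕ) (σ : List Bool) (R : Key), 1 ≤ n →
      (prg m n σ R).length ≤ pl.eval (m + n))
    (hm : 1 ≤ m) (hn : 1 ≤ n) (A : Fin m → Fin n → ℝ) (b : Fin m → ℝ) :
    Runs (start A b) (Smt p A b) (topT m n) (res (sgs A) A b) (m * n + cst m n pl (nq m n)) := by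
  obtain ⟨hBND, hBATCH, hITER, hMONO⟩ := Pool.Agent.W920.FC.t_TT
  have hask := fun ks => askT_run hORD hEQ hSM hLEN hm hn (sgs A) A b ks
  set σ := sgs A with hσ
  set L := tl σ A b (K0 (mm m n) n) with hL
  set L' := tl σ A b (K1 (mm m n) n L) with hL'
  have h1 := hask (K0 (mm m n) n)
  have h2 := hask (K1 (mm m n) n L)
  rw [length_K0'] at h1
  rw [length_K1'] at h2
  have h3 := hITER St (start A b) (Smt p A b) (stpT m n σ L L') (stl σ A b L L')
    (itN (mm m n) n) (cst m n pl (mm m n * (mm m n + 1))) (fun i _ => by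
      have h4 := hask (K2 (mm m n) n (stl σ A b L L' i).2.1)
      rw [length_K2'] at h4
      have h5 := hBND _ St (start A b) (Smt p A b) _
        (fun M => ret (upd (mm m n) n L L' M (stl σ A b L L' i)))
        _ (stl σ A b L L' (i + 1)) _ 0 h4 (Runs.done _ _ 0 fun _ => rfl)
      exact h5)
  have h6 := hBND _ Bool (start A b) (Smt p A b) _ (fun s => ret (fin (mm m n) n L s)) _
    (fin (mm m n) n L (stl σ A b L L' (itN (mm m n) n))) _ 0 h3 (Runs.done _ _ 0 fun _ => rfl)
  have h7 := hBND _ Bool (start A b) (Smt p A b) (askT m n σ (K1 (mm m n) n L))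
    (fun L' => bnd (iter (stpT m n σ L L') (itN (mm m n) n) s0) fun s =>
      ret (fin (mm m n) n L s)) _ _ _ _ h2 h6
  have h8 := hBND _ Bool (start A b) (Smt p A b) (askT m n σ (K0 (mm m n) n))
    (fun L => bnd (askT m n σ (K1 (mm m n) n L)) fun L' =>
      bnd (iter (stpT m n σ L L') (itN (mm m n) n) s0) fun s => ret (fin (mm m n) n L s))
      _ _ _ _ h1 h7
  have h9 := hBND _ Bool (start A b) (Smt p A b) (sgnT m n) (fun σ => mainT m n σ) _ _ _ _
    (sgnT_run p A b) h8
  refine hMONO _ _ _ _ _ _ _ _ (fun v hv => hv) ?_ h9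
  unfold nq cst
  apply le_of_eq
  ring

end Pool.Agent.L7h65.TN
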