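import Pool.Agent.L7h65.TN.Defs
import Pool.Agent.L7h61.CH.Sign
import Pool.Agent.L7h61.CH.Val2

set_option autoImplicit false

/-!
# Linear feasibility for totally nonnegative matrices: statements of the parts
-/

namespace Pool.Agent.L7h65.TN

open Pool.Agent.NPC Pool.Agent.H558R2 Pool.Agent.H622R3.SM Pool.Agent.W920.FC Pool.Agent.L7h61.CH
open Filter

/-! ### The mathematics -/

/-- The maximal minors of `U` are nonnegative, and one of them is positive. -/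
def S_JW : Prop := ∀ (m n : ℕ) (W : Fin m → Fin n → ℝ), TNN W →
  (∀ f : Fin n → ℕ, StrictMono f → (∀ i, f i < n + m) →
    0 ≤ (Matrix.of fun i j => uu W (f i) j).det) ∧
  0 < (Matrix.of fun i j : Fin n => uu W (i : ℕ) j).det

/-- The minors of the Gaussian kernel are positive for large `T`. -/
def S_GK : Prop := ∀ (m n k : ℕ) (f g : Fin k → ℕ), StrictMono f → StrictMono g →
  (∀ i, f i < n + m) → (∀ i, g i < n + m) →
  ∀ᶠ T : ℝ in atTop, 0 < (Matrix.of fun i j : Fin k => T ^ xp m n (f i) (g j)).det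

/-- The maximal minors of `R` are positive for large `T`. -/
def S_POS : Prop := S_JW → S_GK → ∀ (m n : ℕ) (W : Fin m → Fin n → ℝ), TNN W →
  ∀ᶠ T : ℝ in atTop, ∀ f : Fin n → Fin (n + m), StrictMono f →
    0 < (Matrix.of fun i j => rr W T (f i) j).det

/-- The perturbed instance is a Chebyshev system. -/
def S_CHEB : Prop := ∀ (m ν : ℕ) (σ : List Bool) (A : Fin m → Fin (ν + 1) → ℝ) (T : ℝ),
  (∀ f : Fin (ν + 1) → Fin (ν + 1 + m), StrictMono f →
    0 < (Matrix.of fun i j => rr (ww σ A) T (f i) j).det) →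
  ∃ (pos : Fin (mm m (ν + 1)) → Fin (ν + 1 + m)) (c : Fin (mm m (ν + 1)) → ℝ),
    Cheb (AA σ A T) (fun a => rr (ww σ A) T a) pos c

/-- The perturbed instances and the instance are equivalent. -/
def S_LIM : Prop := ∀ (m n : ℕ) (σ : List Bool) (A : Fin m → Fin n → ℝ) (b : Fin m → ℝ), 1 ≤ n →
  ((∃ x : Fin n → ℝ, ∀ i, b i ≤ A i ⬝ᵥ x) →
    ∀ᶠ T : ℝ in atTop, ∃ x : Fin n → ℝ, ∀ r, BB n b T r ≤ AA σ A T r ⬝ᵥ x) ∧
  ((∀ᶠ T : ℝ in atTop, ∃ x : Fin n → ℝ, ∀ r, BB n b T r ≤ AA σ A T r ⬝ᵥ x) →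
    ∃ x : Fin n → ℝ, ∀ i, b i ≤ A i ⬝ᵥ x)

/-- The minors are polynomials in `T`. -/
def S_DEG : Prop := ∀ (m n : ℕ) (σ : List Bool) (A : Fin m → Fin n → ℝ) (b : Fin m → ℝ) (R : Key),
  1 ≤ n → ∃ P : Polynomial ℝ, P.natDegree ≤ kk m n ∧ ∀ T : ℝ, P.eval T = mv σ A b R T

/-- The sign for large `T` is found from the iterated differences. -/
def S_DIF : Prop := ∀ (P : Polynomial ℝ) (K : ℕ), P.natDegree ≤ K → ∀ᶠ T : ℝ in atTop,
  signOut (P.eval T) = lead ((List.range (K + 1)).map fun j =>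
    signOut ((fwdDiff (1 : ℕ))^[j] (fun t : ℕ => P.eval (t : ℝ)) 0))

/-! ### The programs -/

/-- Only the entries of the instance and the constants are read by the program of a minor. -/
def S_READ : Prop := ∀ (m n : ℕ) (h : List Outcome) (q : ℕ), ∀ I ∈ minorProg m n h q,
  ∀ r, (r = I.fst ∨ r = I.snd) → 4 ≤ r.headD 0 ∨ r = [2] ∨ r = [3] ∨
    (∃ i j, i < m ∧ j < n ∧ r = [0, i, j]) ∨ ∃ i, i < m ∧ r = [1, i]

/-- Order. -/
def S_ORDT : Prop := ∀ (m n : ℕ) (σ : List Bool) (R : Key), 1 ≤ n →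
  Ord baseReg (prg m n σ R) ∧ ∀ j ≤ kk m n, [70, j, 0] ∈ wr (prg m n σ R)

/-- Equations. -/
def S_EQT : Prop := ∀ (m n : ℕ) (σ : List Bool) (A : Fin m → Fin n → ℝ) (b : Fin m → ℝ) (R : Key),
  1 ≤ n → (∀ r ∈ baseReg, vv σ A b R r = start A b r) ∧
    ∀ I ∈ prg m n σ R, vv σ A b R I.dst = I.op.eval (vv σ A b R I.fst) (vv σ A b R I.snd) ∧
      (I.op = Op.div → vv σ A b R I.snd ≠ 0)

/-- Sizes. -/
def S_SMT : Prop := ∃ p : Polynomial ℕ, ∀ (m n : ℕ) (σ : List Bool) (A : Fin m → Fin n → ℝ)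
  (b : Fin m → ℝ) (R : Key), 1 ≤ m → 1 ≤ n → ∀ I ∈ prg m n σ R, Smt p A b (vv σ A b R I.dst)

/-- Lengths. -/
def S_LENT : Prop := ∃ p : Polynomial ℕ, ∀ (m n : ℕ) (σ : List Bool) (R : Key), 1 ≤ n →
  (prg m n σ R).length ≤ p.eval (m + n)

/-- Polynomial time. -/
def S_PTT : Prop := PT (fun p : List Unit × List Unit => topT p.1.length p.2.length)

end Pool.Agent.L7h65.TN
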